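import Mathlib

/-!
Definitions for MP_e057d9_co. Partitions are Young diagrams; Mathlib indexes cells from `0`, so
the cell `c` is the cell `(i, j) = (c.1 + 1, c.2 + 1)` of the problem file,
`lambda_i = rowLen (i - 1)` and `lambda^t_j = colLen (j - 1)`.
The polynomial variable is `t`, the power series variable is `x`.
-/

namespace Pool.Agent.Lib.MP_e057d9_co

/-- hook length `lambda_i + lambda^t_j - i - j + 1` -/
def hook (μ : YoungDiagram) (c : ℕ × ℕ) : ℤ :=
  (μ.rowLen c.1 : ℤ) + (μ.colLen c.2 : ℤ) - ((c.1 : ℤ) + 1) - ((c.2 : ℤ) + 1) + 1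

/-- orthogonal content -/
def contentO (μ : YoungDiagram) (c : ℕ × ℕ) : ℤ :=
  if c.2 ≤ c.1 then
    (μ.rowLen c.1 : ℤ) + (μ.rowLen c.2 : ℤ) - ((c.1 : ℤ) + 1) - ((c.2 : ℤ) + 1)
  else
    ((c.1 : ℤ) + 1) + ((c.2 : ℤ) + 1) - (μ.colLen c.1 : ℤ) - (μ.colLen c.2 : ℤ) - 2

/-- the product over the cells of `(t + c_O(u)) / h(u)`, a polynomial in `t` -/
noncomputable def WO (μ : YoungDiagram) : Polynomial ℚ :=
  ∏ c ∈ μ.cells,
    Polynomial.C (1 / (hook μ c : ℚ)) * (Polynomial.X + Polynomial.C (contentO μ c : ℚ))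

/-- the binomial coefficient `a (a - 1) ... (a - m + 1) / m!` -/
noncomputable def binom (a : Polynomial ℚ) (m : ℕ) : Polynomial ℚ :=
  Polynomial.C (1 / (m.factorial : ℚ)) * ∏ i ∈ Finset.range m, (a - Polynomial.C (i : ℚ))

/-- the binomial series `(1 - x^k)^a`, the sum over `m` of `binom a m * (-x^k)^m` -/
noncomputable def binPow (k : ℕ) (a : Polynomial ℚ) : PowerSeries (Polynomial ℚ) :=
  PowerSeries.mk fun n => if k ∣ n then (-1) ^ (n / k) * binom a (n / k) else 0

/-- `t (t - 1) / 2` -/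
noncomputable def chooseT : Polynomial ℚ :=
  Polynomial.C (1 / 2) * (Polynomial.X * (Polynomial.X - 1))

/-- `t (t + 1) / 2` -/
noncomputable def chooseT1 : Polynomial ℚ :=
  Polynomial.C (1 / 2) * (Polynomial.X * (Polynomial.X + 1))

/-- the factor `A_j` of the infinite product, for `j` at least `1` -/
noncomputable def factorA (j : ℕ) : PowerSeries (Polynomial ℚ) :=
  binPow (8 * j) chooseT * binPow (8 * j - 6) (1 - chooseT) * binPow (4 * j - 1) Polynomial.X *
    binPow (4 * j - 3) (-Polynomial.X) * binPow (8 * j - 4) (chooseT1 - 1) *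
    binPow (8 * j - 2) (1 - chooseT1)

end Pool.Agent.Lib.MP_e057d9_co
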