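import Mathlib

-- part Pool.Agent.Lib.MP_e057d9_co.Box
section

/-!
Finite boxes of sequences, multilinear expansion of determinants over boxes, telescoping
determinants.
-/

open Finset

namespace Pool.Agent.Lib.MP_e057d9_co

/-- extension by zero of a finite sequence -/
def ext0 {N : ℕ} (f : Fin N → ℕ) : ℕ → ℕ := fun i => if h : i < N then f ⟨i, h⟩ else 0

@[simp] lemma ext0_fin {N : ℕ} (f : Fin N → ℕ) (i : Fin N) : ext0 f i = f i := by
  simp [ext0]

lemma ext0_injective {N : ℕ} : Function.Injective (ext0 (N := N)) := by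
  intro f g h
  funext i
  have := congrFun h i
  simpa using this

/-- sequences supported below `N` with entries between `lo` and `hi` -/
def box (N : ℕ) (lo hi : ℕ → ℕ) : Finset (ℕ → ℕ) :=
  (Fintype.piFinset fun i : Fin N => Icc (lo i) (hi i)).map ⟨ext0, ext0_injective⟩

lemma mem_box {N : ℕ} {lo hi : ℕ → ℕ} {μ : ℕ → ℕ} :
    μ ∈ box N lo hi ↔ (∀ i, i < N → lo i ≤ μ i ∧ μ i ≤ hi i) ∧ ∀ i, N ≤ i → μ i = 0 := by
  simp only [box, mem_map, Fintype.mem_piFinset, mem_Icc, Function.Embedding.coeFn_mk]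
  constructor
  · rintro ⟨f, hf, rfl⟩
    refine ⟨fun i hi => ?_, fun i hi => ?_⟩
    · have := hf ⟨i, hi⟩
      simpa [ext0, hi] using this
    · simp [ext0, not_lt.2 hi]
  · rintro ⟨h1, h2⟩
    refine ⟨fun i => μ i, fun i => h1 i i.2, ?_⟩
    funext i
    by_cases hi : i < N
    · simp [ext0, hi]
    · simp [ext0, hi, h2 i (not_lt.1 hi)]

variable {R : Type*} [CommRing R]

lemma prod_sum_box (N : ℕ) (lo hi : ℕ → ℕ) (c : ℕ → ℕ → R) :
    ∏ i ∈ range N, ∑ m ∈ Icc (lo i) (hi i), c i m =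
      ∑ μ ∈ box N lo hi, ∏ i ∈ range N, c i (μ i) := by
  rw [box, sum_map, ← Fin.prod_univ_eq_prod_range (fun i => ∑ m ∈ Icc (lo i) (hi i), c i m),
    Finset.prod_univ_sum]
  refine sum_congr rfl fun f _ => ?_
  simp only [Function.Embedding.coeFn_mk]
  rw [← Fin.prod_univ_eq_prod_range (fun i => c i (ext0 f i))]
  simp

lemma det_sum_box (N : ℕ) (lo hi : ℕ → ℕ) (c : ℕ → ℕ → R) (v : ℕ → ℕ → ℕ → R) :
    Matrix.det (Matrix.of fun i j : Fin N => ∑ m ∈ Icc (lo i) (hi i), c i m * v i m j) =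
      ∑ μ ∈ box N lo hi, (∏ i ∈ range N, c i (μ i)) *
        Matrix.det (Matrix.of fun i j : Fin N => v i (μ i) j) := by
  have h := (Matrix.detRowAlternating (n := Fin N) (R := R)).toMultilinearMap.map_sum_finset
    (fun (i : Fin N) (m : ℕ) => fun j : Fin N => c i m * v i m j)
    (fun i : Fin N => Icc (lo i) (hi i))
  have e : (Matrix.of fun i j : Fin N => ∑ m ∈ Icc (lo i) (hi i), c i m * v i m j) =
      fun i : Fin N => ∑ m ∈ Icc (lo i) (hi i), fun j : Fin N => c i m * v i m j := by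
    ext i j; simp
  rw [e]
  refine h.trans ?_
  rw [box, sum_map]
  refine sum_congr rfl fun f _ => ?_
  simp only [Function.Embedding.coeFn_mk]
  rw [← Fin.prod_univ_eq_prod_range (fun i => c i (ext0 f i))]
  have := Matrix.det_mul_column (fun i : Fin N => c i (f i))
    (Matrix.of fun i j : Fin N => v i (f i) j)
  simp only [ext0_fin]
  exact this

/-- subtracting multiples of the next row -/
lemma det_sub_next (N : ℕ) (r : ℕ → ℕ → R) (c : ℕ → R) (hN : ∀ j, j < N → c (N - 1) * r N j = 0) :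
    Matrix.det (Matrix.of fun i j : Fin N => r i j - c i * r (i + 1) j) =
      Matrix.det (Matrix.of fun i j : Fin N => r i j) := by
  let T : Matrix (Fin N) (Fin N) R := Matrix.of fun i k =>
    (if (k : ℕ) = i then 1 else 0) - (if (k : ℕ) = i + 1 then c i else 0)
  have hT : T.det = 1 := by
    rw [Matrix.det_of_isUpperTriangular]
    · refine Finset.prod_eq_one fun i _ => ?_
      simp [T]
    · intro i k hik
      have h1 : (k : ℕ) < i := hik
      have h2 : (k : ℕ) ≠ i := by omega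
      have h3 : (k : ℕ) ≠ i + 1 := by omega
      simp [T, h2, h3]
  have hmul : (Matrix.of fun i j : Fin N => r i j - c i * r (i + 1) j) =
      T * Matrix.of fun i j : Fin N => r i j := by
    ext i j
    simp only [Matrix.mul_apply, T, Matrix.of_apply, sub_mul, sum_sub_distrib, ite_mul, one_mul,
      zero_mul]
    congr 1
    · rw [Finset.sum_eq_single i]
      · simp
      · intro k _ hk
        rw [if_neg (fun h => hk (Fin.ext h))]
      · simp
    · by_cases h : (i : ℕ) + 1 < N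
      · rw [Finset.sum_eq_single ⟨i + 1, h⟩]
        · simp
        · intro k _ hk
          rw [if_neg (fun h' => hk (Fin.ext h'))]
        · simp
      · have h' : (i : ℕ) + 1 = N := by omega
        have h'' : (i : ℕ) = N - 1 := by omega
        rw [h', show c i = c (N - 1) by rw [← h''], hN j j.2]
        refine (Finset.sum_eq_zero fun k _ => ?_).symm
        rw [if_neg k.2.ne]
  rw [hmul, Matrix.det_mul, hT, one_mul]

/-- subtracting multiples of the previous row -/
lemma det_sub_prev (N : ℕ) (r : ℕ → ℕ → R) (c : ℕ → R) (hc : c 0 = 0) :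
    Matrix.det (Matrix.of fun i j : Fin N => r i j - c i * r (i - 1) j) =
      Matrix.det (Matrix.of fun i j : Fin N => r i j) := by
  cases N with
  | zero => simp
  | succ n =>
    symm
    refine Matrix.det_eq_of_forall_row_eq_smul_add_pred (fun i : Fin n => c (i + 1)) ?_ ?_
    · intro j; simp [hc]
    · intro i j; simp

end Pool.Agent.Lib.MP_e057d9_co
end

-- part Pool.Agent.Lib.MP_e057d9_co.Det
section

/-!
The universal orthogonal character as a determinant, its branching rule and its Pieri rule.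
-/

open Finset

namespace Pool.Agent.Lib.MP_e057d9_co

variable {R : Type*} [CommRing R]

/-- coefficient sequences of power series with constant term one -/
def Good (h : ℤ → R) : Prop := (∀ k, k < 0 → h k = 0) ∧ h 0 = 1

/-- matrix entries -/
def ent (h : ℤ → R) (a : ℤ) (j : ℕ) : R := h (a + ((j : ℤ) + 1)) - h (a - ((j : ℤ) + 1))

/-- the determinant -/
def Odet (N : ℕ) (h : ℤ → R) (l : ℕ → ℕ) : R :=
  Matrix.det (Matrix.of fun i j : Fin N => ent h ((l i : ℤ) - ((i : ℕ) + 1)) j)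

/-- multiplication of the series by `1 - y z` -/
def Lm (y : R) (h : ℤ → R) : ℤ → R := fun k => h k - y * h (k - 1)

lemma Good.Lm {h : ℤ → R} (hh : Good h) (y : R) : Good (Lm y h) := by
  refine ⟨fun k hk => ?_, ?_⟩
  · simp only [MP_e057d9_co.Lm]
    rw [hh.1 k hk, hh.1 (k - 1) (by omega)]; simp
  · simp only [MP_e057d9_co.Lm]
    rw [hh.2, hh.1 (0 - 1) (by omega)]; simp

lemma Lm_comm (y w : R) (h : ℤ → R) : Lm y (Lm w h) = Lm w (Lm y h) := by
  funext k; simp only [Lm]; ring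

lemma ent_Lm (y : R) (h : ℤ → R) (a : ℤ) (j : ℕ) :
    ent (Lm y h) a j = ent h a j - y * ent h (a - 1) j := by
  simp only [ent, Lm]
  have e1 : a + ((j : ℤ) + 1) - 1 = a - 1 + ((j : ℤ) + 1) := by ring
  have e2 : a - ((j : ℤ) + 1) - 1 = a - 1 - ((j : ℤ) + 1) := by ring
  rw [e1, e2]; ring

lemma ent_eq_zero {h : ℤ → R} (hh : Good h) {a : ℤ} {j : ℕ} (ha : a + ((j : ℤ) + 1) < 0) :
    ent h a j = 0 := by
  rw [ent, hh.1 _ ha, hh.1 _ (by omega), sub_zero]

lemma det_last_row {N : ℕ} (A : Matrix (Fin (N + 1)) (Fin (N + 1)) R)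
    (h : ∀ j : Fin N, A (Fin.last N) j.castSucc = 0) :
    A.det = A (Fin.last N) (Fin.last N) * (A.submatrix Fin.castSucc Fin.castSucc).det := by
  rw [Matrix.det_succ_row A (Fin.last N), Fin.sum_univ_castSucc]
  rw [Finset.sum_eq_zero (fun j _ => by rw [h j]; simp)]
  simp only [Fin.val_last, Fin.succAbove_last, zero_add]
  rw [← two_mul, pow_mul]; simp

lemma Odet_succ {h : ℤ → R} (hh : Good h) (N : ℕ) (l : ℕ → ℕ) (hl : l N = 0) :
    Odet (N + 1) h l = Odet N h l := by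
  rw [Odet, det_last_row]
  · simp only [Matrix.of_apply, Fin.val_last, hl]
    have : ent h (((0 : ℕ) : ℤ) - ((N : ℤ) + 1)) N = 1 := by
      rw [ent, show ((0 : ℕ) : ℤ) - ((N : ℤ) + 1) + ((N : ℤ) + 1) = 0 by simp, hh.2,
        hh.1 _ (by omega), sub_zero]
    rw [this, one_mul]
    rfl
  · intro j
    simp only [Matrix.of_apply, Fin.val_last, hl, Fin.val_castSucc]
    apply ent_eq_zero hh
    have := j.2
    omega

lemma Odet_congr (N : ℕ) (h : ℤ → R) {l l' : ℕ → ℕ} (hl : ∀ i, i < N → l i = l' i) :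
    Odet N h l = Odet N h l' := by
  unfold Odet
  congr 1
  ext i j
  simp only [Matrix.of_apply, hl i i.2]

lemma tele_down (g : ℤ → R) (y : R) (s : ℤ) (b a : ℕ) (hba : b ≤ a) :
    ∑ m ∈ Icc b a, y ^ (a - m) * (g ((m : ℤ) - s) - y * g ((m : ℤ) - s - 1)) =
      g ((a : ℤ) - s) - y ^ (a - b + 1) * g ((b : ℤ) - s - 1) := by
  induction a, hba using Nat.le_induction with
  | base => simp
  | succ a hba ih =>
    rw [← Finset.insert_Icc_right_eq_Icc_add_one (by omega), sum_insert (by simp)]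
    have : ∑ m ∈ Icc b a, y ^ (a + 1 - m) * (g ((m : ℤ) - s) - y * g ((m : ℤ) - s - 1)) =
        y * ∑ m ∈ Icc b a, y ^ (a - m) * (g ((m : ℤ) - s) - y * g ((m : ℤ) - s - 1)) := by
      rw [mul_sum]
      refine sum_congr rfl fun m hm => ?_
      have hm' := (mem_Icc.1 hm).2
      rw [show a + 1 - m = (a - m) + 1 by omega, pow_succ]; ring
    rw [this, ih, show a + 1 - b + 1 = (a - b + 1) + 1 by omega, pow_succ _ (a - b + 1)]
    have e : ((a + 1 : ℕ) : ℤ) - s - 1 = (a : ℤ) - s := by push_cast; ring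
    rw [e]; simp; ring

lemma tele_up (g : ℤ → R) (w : R) (s : ℤ) (b a : ℕ) (hba : b ≤ a) :
    ∑ m ∈ Icc b a, w ^ (m - b) * (g ((m : ℤ) - s) - w * g ((m : ℤ) - s + 1)) =
      g ((b : ℤ) - s) - w ^ (a - b + 1) * g ((a : ℤ) - s + 1) := by
  induction a, hba using Nat.le_induction with
  | base => simp
  | succ a hba ih =>
    rw [← Finset.insert_Icc_right_eq_Icc_add_one (by omega), sum_insert (by simp), ih,
      show a + 1 - b = (a - b + 1) by omega, pow_succ _ (a - b + 1)]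
    have e : ((a + 1 : ℕ) : ℤ) - s = (a : ℤ) - s + 1 := by push_cast; ring
    rw [e]; ring

/-- branching rule -/
theorem branch {h : ℤ → R} (hh : Good h) (y : R) (N : ℕ) (l : ℕ → ℕ) (hl : Antitone l)
    (hN : l N = 0) :
    Odet N h l = ∑ μ ∈ box N (fun i => l (i + 1)) l,
      (∏ i ∈ range N, y ^ (l i - μ i)) * Odet N (Lm y h) μ := by
  have h1 := det_sum_box N (fun i => l (i + 1)) l (fun i m => y ^ (l i - m))
    (fun i m j => ent (Lm y h) ((m : ℤ) - ((i : ℤ) + 1)) j)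
  unfold Odet
  rw [← h1]
  have h2 := det_sub_next N (fun i j => ent h ((l i : ℤ) - ((i : ℤ) + 1)) j)
    (fun i => y ^ (l i - l (i + 1) + 1)) (fun j hj => by
      rw [ent_eq_zero hh (by rw [hN]; omega), mul_zero])
  rw [← h2]
  congr 1
  ext i j
  simp only [Matrix.of_apply, ent_Lm]
  rw [tele_down (fun a => ent h a j) y ((i : ℤ) + 1) _ _ (hl (Nat.le_succ _))]
  congr 3
  push_cast; ring

/-- upper bounds for the rows of a partition interlacing from above -/
def prv (M : ℕ) (l : ℕ → ℕ) : ℕ → ℕ := fun i => if i = 0 then M else l (i - 1)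

/-- multiplication of the series by the inverse of `1 - w / z` -/
def Dn (w : R) (K : ℕ) (h : ℤ → R) : ℤ → R := fun k => ∑ m ∈ range (K + 1), w ^ m * h (k + m)

lemma Dn_rec {w : R} {K : ℕ} (hw : w ^ (K + 1) = 0) (h : ℤ → R) (k : ℤ) :
    Dn w K h k - w * Dn w K h (k + 1) = h k := by
  unfold Dn
  rw [sum_range_succ', mul_sum, sum_range_succ (fun m => w * (w ^ m * h (k + 1 + m)))]
  have e1 : ∑ m ∈ range K, w ^ (m + 1) * h (k + ((m + 1 : ℕ) : ℤ)) =
      ∑ m ∈ range K, w * (w ^ m * h (k + 1 + m)) := by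
    refine sum_congr rfl fun m _ => ?_
    rw [show k + ((m + 1 : ℕ) : ℤ) = k + 1 + m by push_cast; ring, pow_succ]; ring
  have e2 : w * (w ^ K * h (k + 1 + K)) = 0 := by
    rw [← mul_assoc, ← pow_succ', hw, zero_mul]
  rw [e1, e2]; simp

lemma ent_Dn {w : R} {K : ℕ} (hw : w ^ (K + 1) = 0) (h : ℤ → R) (a : ℤ) (j : ℕ) :
    ent h a j = ent (Dn w K h) a j - w * ent (Dn w K h) (a + 1) j := by
  simp only [ent]
  rw [← Dn_rec hw h (a + ((j : ℤ) + 1)), ← Dn_rec hw h (a - ((j : ℤ) + 1))]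
  have e1 : a + ((j : ℤ) + 1) + 1 = a + 1 + ((j : ℤ) + 1) := by ring
  have e2 : a - ((j : ℤ) + 1) + 1 = a + 1 - ((j : ℤ) + 1) := by ring
  rw [e1, e2]; ring

theorem pieri1 (h : ℤ → R) {w : R} {K : ℕ} (hw : w ^ (K + 1) = 0) (N M : ℕ) (l : ℕ → ℕ)
    (hl : Antitone l) (hM : l 0 ≤ M) (hw' : w ^ (M - l 0 + 1) = 0) :
    ∑ μ ∈ box N l (prv M l), (∏ i ∈ range N, w ^ (μ i - l i)) * Odet N h μ =
      Odet N (Dn w K h) l := by
  have h1 := det_sum_box N l (prv M l) (fun i m => w ^ (m - l i))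
    (fun i m j => ent h ((m : ℤ) - ((i : ℤ) + 1)) j)
  unfold Odet
  rw [← h1]
  have h2 := det_sub_prev N (fun i j => ent (Dn w K h) ((l i : ℤ) - ((i : ℤ) + 1)) j)
    (fun i => w ^ (prv M l i - l i + 1)) (by simpa [prv] using hw')
  rw [← h2]
  congr 1
  ext i j
  simp only [Matrix.of_apply]
  have hle : l i ≤ prv M l i := by
    unfold prv
    split_ifs with hi
    · rw [hi]; exact hM
    · exact hl (Nat.sub_le _ _)
  simp_rw [ent_Dn hw h]
  rw [tele_up (fun a => ent (Dn w K h) a j) w ((i : ℤ) + 1) _ _ hle]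
  by_cases hi : (i : ℕ) = 0
  · have : w ^ (prv M l i - l i + 1) = 0 := by rw [hi]; simpa [prv] using hw'
    rw [this]; simp
  · congr 3
    simp only [prv, if_neg hi]
    have : (((i : ℕ) - 1 : ℕ) : ℤ) = (i : ℕ) - 1 := by omega
    rw [this]; ring

theorem pieri2 {h : ℤ → R} (hh : Good h) {w : R} {K : ℕ} (hw : w ^ (K + 1) = 0) (N : ℕ)
    (l : ℕ → ℕ) (hN : l N = 0) :
    Odet (N + 1) (Dn w K h) l = (1 - w ^ 2) * Dn w K h 0 * Odet N (Lm w h) l := by
  set H := Dn w K h with hH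
  have hrec : ∀ k, h k = H k - w * H (k + 1) := fun k => (Dn_rec hw h k).symm
  let a : ℕ → ℤ := fun i => (l i : ℤ) - ((i : ℤ) + 1)
  let E : ℕ → ℕ → R := fun j i => ent H (a i) j - (if j = 0 then 0 else w) * ent H (a i) (j - 1)
  have hE : ∀ j i, E j i = (H (a i + (j + 1)) - H (a i - (j + 1))) -
      w * (H (a i + j) - H (a i - j)) := by
    intro j i
    simp only [E, ent]
    by_cases hj : j = 0
    · simp [hj]
    · rw [if_neg hj]
      have : (((j - 1 : ℕ) : ℤ) + 1) = j := by omega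
      rw [this]
  have h1 := det_sub_prev (N + 1) (fun j i => ent H (a i) j) (fun j => if j = 0 then 0 else w)
    (by simp)
  have h2 := det_sub_next (N + 1) E (fun j => if j < N then w else 0) (by simp)
  have h0 : Odet (N + 1) H l =
      Matrix.det (Matrix.of fun j i : Fin (N + 1) => ent H (a i) j) := by
    rw [Odet, ← Matrix.det_transpose]; rfl
  rw [h0, ← h1, ← h2, ← Matrix.det_transpose, det_last_row]
  · congr 1
    · simp only [Matrix.transpose_apply, Matrix.of_apply, Fin.val_last, lt_self_iff_false,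
        if_false, zero_mul, sub_zero]
      rw [hE]
      have ea : a N = -((N : ℤ) + 1) := by simp [a, hN]
      have e1 := hrec (-1)
      have e2 := hrec (-(2 * (N : ℤ) + 2))
      rw [hh.1 _ (by omega)] at e1 e2
      rw [ea, show -((N : ℤ) + 1) + (N + 1) = 0 by ring,
        show -((N : ℤ) + 1) - (N + 1) = -(2 * (N : ℤ) + 2) by ring,
        show -((N : ℤ) + 1) + N = -1 by ring,
        show -((N : ℤ) + 1) - N = -(2 * (N : ℤ) + 2) + 1 by ring]
      rw [show (-1 : ℤ) + 1 = 0 by ring] at e1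
      linear_combination e2 + w * e1
    · unfold Odet
      congr 1
      ext i j
      simp only [Matrix.submatrix_apply, Matrix.transpose_apply, Matrix.of_apply,
        Fin.val_castSucc, if_pos j.2]
      rw [hE, hE]
      simp only [ent, Lm, hrec]
      change _ = H (a i + (j + 1)) - w * H (a i + (j + 1) + 1) -
        w * (H (a i + (j + 1) - 1) - w * H (a i + (j + 1) - 1 + 1)) -
        (H (a i - (j + 1)) - w * H (a i - (j + 1) + 1) -
        w * (H (a i - (j + 1) - 1) - w * H (a i - (j + 1) - 1 + 1)))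
      push_cast
      ring_nf
  · intro j
    simp only [Matrix.transpose_apply, Matrix.of_apply, Fin.val_last, Fin.val_castSucc,
      if_pos j.2]
    have hz : ent (Lm w h) (a N) j = 0 := by
      apply ent_eq_zero (hh.Lm w)
      have := j.2
      simp only [a, hN]; omega
    rw [← hz, hE, hE]
    simp only [ent, Lm, hrec]
    push_cast
    ring_nf

end Pool.Agent.Lib.MP_e057d9_co
end

-- part Pool.Agent.Lib.MP_e057d9_co.Star
section

/-!
The generating function over partitions in a box and its functional equation, over a ring with a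
nilpotent element `x`.
-/

open Finset

namespace Pool.Agent.Lib.MP_e057d9_co

variable {R : Type*} [CommRing R]

open Classical in
/-- partitions with at most `N` parts, each at most `M` -/
noncomputable def Par (N M : ℕ) : Finset (ℕ → ℕ) :=
  (box N (fun _ => 0) (fun _ => M)).filter Antitone

lemma mem_Par {N M : ℕ} {l : ℕ → ℕ} : l ∈ Par N M ↔ Antitone l ∧ l N = 0 ∧ l 0 ≤ M := by
  simp only [Par, mem_filter, mem_box]
  constructor
  · rintro ⟨⟨h1, h2⟩, h3⟩
    refine ⟨h3, h2 N le_rfl, ?_⟩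
    by_cases h : 0 < N
    · exact (h1 0 h).2
    · rw [h2 0 (by omega)]; exact Nat.zero_le _
  · rintro ⟨h1, h2, h3⟩
    refine ⟨⟨fun i _ => ⟨Nat.zero_le _, (h1 (Nat.zero_le i)).trans h3⟩, fun i hi => ?_⟩, h1⟩
    have := h1 hi
    omega

/-- size of a partition -/
def sz (N : ℕ) (l : ℕ → ℕ) : ℕ := ∑ i ∈ range N, l i

/-- the generating function -/
noncomputable def Fgen (N M : ℕ) (x : R) (h : ℤ → R) : R :=
  ∑ l ∈ Par N M, x ^ sz N l * Odet N h l

lemma swap_sum {A : Type*} [AddCommMonoid A] (N M : ℕ) (φ : (ℕ → ℕ) → (ℕ → ℕ) → A) :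
    ∑ l ∈ Par N M, ∑ μ ∈ box N (fun i => l (i + 1)) l, φ l μ =
      ∑ μ ∈ Par N M, ∑ l ∈ box N μ (prv M μ), φ l μ := by
  refine sum_comm' fun l μ => ?_
  simp only [mem_Par, mem_box]
  constructor
  · rintro ⟨⟨h1, h2, h3⟩, h4, h5⟩
    have hle : ∀ i, μ i ≤ l i := by
      intro i
      by_cases hi : i < N
      · exact (h4 i hi).2
      · rw [h5 i (not_lt.1 hi)]; exact Nat.zero_le _
    have hge : ∀ i, l (i + 1) ≤ μ i := by
      intro i
      by_cases hi : i < N
      · exact (h4 i hi).1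
      · have := h1 (show N ≤ i + 1 by omega)
        omega
    refine ⟨⟨fun i _ => ⟨hle i, ?_⟩, fun i hi => ?_⟩, ?_, h5 N le_rfl, (hle 0).trans h3⟩
    · unfold prv
      split_ifs with hi
      · rw [hi]; exact h3
      · have := hge (i - 1)
        rwa [show i - 1 + 1 = i by omega] at this
    · have := h1 hi
      omega
    · exact antitone_nat_of_succ_le fun i => (hle (i + 1)).trans (hge i)
  · rintro ⟨⟨h4, h5⟩, h1, h2, h3⟩
    have hle : ∀ i, μ i ≤ l i := by
      intro i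
      by_cases hi : i < N
      · exact (h4 i hi).1
      · have := h1 (not_lt.1 hi)
        omega
    have hge : ∀ i, l (i + 1) ≤ μ i := by
      intro i
      by_cases hi : i + 1 < N
      · simpa [prv] using (h4 (i + 1) hi).2
      · rw [h5 (i + 1) (not_lt.1 hi)]; exact Nat.zero_le _
    refine ⟨⟨antitone_nat_of_succ_le fun i => (hge i).trans (hle i), h5 N le_rfl, ?_⟩,
      fun i _ => ⟨hge i, hle i⟩, fun i hi => ?_⟩
    · by_cases h : 0 < N
      · simpa [prv] using (h4 0 h).2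
      · rw [h5 0 (by omega)]; exact Nat.zero_le _
    · have := h1 hi
      omega

lemma prod_pow_sub (x : R) (N : ℕ) (l μ : ℕ → ℕ) (h : ∀ i, i < N → μ i ≤ l i) :
    x ^ sz N l = x ^ sz N μ * ∏ i ∈ range N, x ^ (l i - μ i) := by
  rw [prod_pow_eq_pow_sum, ← pow_add, sz, sz, ← sum_add_distrib]
  congr 1
  refine sum_congr rfl fun i hi => ?_
  have := h i (mem_range.1 hi)
  omega

lemma geom_up (u : R) (b a : ℕ) (hba : b ≤ a) :
    ∑ m ∈ Icc b a, u ^ (m - b) = ∑ m ∈ range (a - b + 1), u ^ m := by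
  refine sum_nbij' (fun m => m - b) (fun m => m + b) ?_ ?_ ?_ ?_ ?_ <;>
    simp only [mem_Icc, mem_range] <;> intros <;> first | omega | trivial

lemma geom_down (u : R) (b a : ℕ) (hba : b ≤ a) :
    ∑ m ∈ Icc b a, u ^ (a - m) = ∑ m ∈ range (a - b + 1), u ^ m := by
  refine sum_nbij' (fun m => a - m) (fun m => a - m) ?_ ?_ ?_ ?_ ?_ <;>
    simp only [mem_Icc, mem_range] <;> intros <;> first | omega | trivial

lemma pow_eq_zero_of_le' {x : R} {n k : ℕ} (hx : x ^ (n + 1) = 0) (hk : n + 1 ≤ k) : x ^ k = 0 :=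
  pow_eq_zero_of_le hk hx

lemma first_le_sz (N : ℕ) (l : ℕ → ℕ) : l 0 ≤ sz (N + 1) l := by
  rw [sz, sum_range_succ']; omega

lemma le_sz_of_last {N : ℕ} {l : ℕ → ℕ} (hl : Antitone l) (h : l N ≠ 0) :
    N + 1 ≤ sz (N + 1) l := by
  have : ∑ _i ∈ range (N + 1), 1 ≤ sz (N + 1) l := by
    refine sum_le_sum fun i hi => ?_
    have := hl (show i ≤ N by have := mem_range.1 hi; omega)
    omega
  simpa using this

/-- the reflection relation at the free boundary -/
lemma reflect {x : R} {n : ℕ} (hx : x ^ (n + 1) = 0) (y : R) {N M : ℕ} (hN : n ≤ N)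
    (hM : 2 * n ≤ M) {μ : ℕ → ℕ} (hμ : μ ∈ Par (N + 1) M) :
    x ^ sz (N + 1) μ * ((1 - x * y) *
      ∑ l ∈ box (N + 1) μ (prv M μ), ∏ i ∈ range (N + 1), (x * y) ^ (l i - μ i)) =
    x ^ sz (N + 1) μ *
      ∑ ν ∈ box (N + 1) (fun i => μ (i + 1)) μ, ∏ i ∈ range (N + 1), (x * y) ^ (μ i - ν i) := by
  obtain ⟨h1, h2, h3⟩ := mem_Par.1 hμ
  by_cases hs : n + 1 ≤ sz (N + 1) μ
  · rw [pow_eq_zero_of_le' hx hs]; simp
  congr 1
  have hlast : μ N = 0 := by
    by_contra hc
    have := le_sz_of_last h1 hc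
    omega
  have hfirst : μ 0 ≤ n := by have := first_le_sz N μ; omega
  rw [← prod_sum_box (N + 1) μ (prv M μ) (fun i m => (x * y) ^ (m - μ i)),
    ← prod_sum_box (N + 1) (fun i => μ (i + 1)) μ (fun i m => (x * y) ^ (μ i - m)),
    prod_range_succ', prod_range_succ]
  have e1 : (1 - x * y) * ∑ m ∈ Icc (μ 0) (prv M μ 0), (x * y) ^ (m - μ 0) = 1 := by
    have : prv M μ 0 = M := by simp [prv]
    rw [this, geom_up _ _ _ h3, mul_neg_geom_sum, mul_pow,
      pow_eq_zero_of_le' hx (by omega)]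
    simp
  have e2 : ∑ m ∈ Icc (μ (N + 1)) (μ N), (x * y) ^ (μ N - m) = 1 := by
    rw [h2, hlast]; simp
  have e3 : ∏ i ∈ range N, ∑ m ∈ Icc (μ (i + 1)) (prv M μ (i + 1)), (x * y) ^ (m - μ (i + 1)) =
      ∏ i ∈ range N, ∑ m ∈ Icc (μ (i + 1)) (μ i), (x * y) ^ (μ i - m) := by
    refine prod_congr rfl fun i _ => ?_
    have : prv M μ (i + 1) = μ i := by simp [prv]
    rw [this, geom_up _ _ _ (h1 (Nat.le_succ i)), geom_down _ _ _ (h1 (Nat.le_succ i))]
  rw [e2, e3, mul_comm _ (∑ m ∈ Icc (μ 0) (prv M μ 0), (x * y) ^ (m - μ 0)), ← mul_assoc, e1]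
  simp

/-- the functional equation -/
theorem star {x : R} {n : ℕ} (hx : x ^ (n + 1) = 0) (y : R) {N M : ℕ} (hN : n ≤ N)
    (hM : 2 * n ≤ M) {h : ℤ → R} (hh : Good h) :
    (1 - x * y) * Fgen (N + 1) M x h =
      (1 - (x ^ 2 * y) ^ 2) * Dn (x ^ 2 * y) n (Lm y h) 0 *
        Fgen (N + 1) M x (Lm (x ^ 2 * y) (Lm y h)) := by
  set h' := Lm y h with hh'
  have hg' : Good h' := hh.Lm y
  have hwk : ∀ k, n + 1 ≤ k → (x ^ 2 * y) ^ k = 0 := by
    intro k hk
    rw [mul_pow, ← pow_mul, pow_eq_zero_of_le' hx (by omega), zero_mul]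
  have s1 : Fgen (N + 1) M x h = ∑ μ ∈ Par (N + 1) M, ∑ l ∈ box (N + 1) μ (prv M μ),
      x ^ sz (N + 1) μ * (∏ i ∈ range (N + 1), (x * y) ^ (l i - μ i)) * Odet (N + 1) h' μ := by
    rw [← swap_sum, Fgen]
    refine sum_congr rfl fun l hl => ?_
    obtain ⟨h1, h2, -⟩ := mem_Par.1 hl
    rw [branch hh y (N + 1) l h1 h2, mul_sum]
    refine sum_congr rfl fun μ hμ => ?_
    rw [prod_pow_sub x (N + 1) l μ (fun i hi => ((mem_box.1 hμ).1 i hi).2)]
    simp only [mul_pow, prod_mul_distrib]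
    ring
  have s2 : (1 - x * y) * Fgen (N + 1) M x h = ∑ μ ∈ Par (N + 1) M,
      ∑ ν ∈ box (N + 1) (fun i => μ (i + 1)) μ, x ^ sz (N + 1) ν *
        ((∏ i ∈ range (N + 1), (x ^ 2 * y) ^ (μ i - ν i)) * Odet (N + 1) h' μ) := by
    rw [s1, mul_sum]
    refine sum_congr rfl fun μ hμ => ?_
    have := reflect hx y hN hM hμ
    rw [← sum_mul, ← mul_sum]
    calc (1 - x * y) * ((x ^ sz (N + 1) μ * ∑ l ∈ box (N + 1) μ (prv M μ),
            ∏ i ∈ range (N + 1), (x * y) ^ (l i - μ i)) * Odet (N + 1) h' μ)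
        = (x ^ sz (N + 1) μ * ((1 - x * y) * ∑ l ∈ box (N + 1) μ (prv M μ),
            ∏ i ∈ range (N + 1), (x * y) ^ (l i - μ i))) * Odet (N + 1) h' μ := by ring
      _ = _ := by
        rw [this, mul_sum, sum_mul]
        refine sum_congr rfl fun ν hν => ?_
        rw [prod_pow_sub x (N + 1) μ ν (fun i hi => ((mem_box.1 hν).1 i hi).2)]
        have : ∏ i ∈ range (N + 1), (x ^ 2 * y) ^ (μ i - ν i) =
            (∏ i ∈ range (N + 1), x ^ (μ i - ν i)) *
              ∏ i ∈ range (N + 1), (x * y) ^ (μ i - ν i) := by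
          rw [← prod_mul_distrib]
          refine prod_congr rfl fun i _ => ?_
          rw [← mul_pow]; congr 1; ring
        rw [this]; ring
  rw [s2, swap_sum, Fgen, mul_sum]
  refine sum_congr rfl fun ν hν => ?_
  obtain ⟨h1, h2, h3⟩ := mem_Par.1 hν
  rw [← mul_sum]
  by_cases hs : n + 1 ≤ sz (N + 1) ν
  · rw [pow_eq_zero_of_le' hx hs]; simp
  have hlast : ν N = 0 := by
    by_contra hc
    have := le_sz_of_last h1 hc
    omega
  have hfirst : ν 0 ≤ n := by have := first_le_sz N ν; omega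
  rw [pieri1 h' (hwk (n + 1) le_rfl) (N + 1) M ν h1 h3 (hwk _ (by omega)),
    pieri2 hg' (hwk (n + 1) le_rfl) N ν hlast, Odet_succ (hg'.Lm _) N ν hlast]
  ring

end Pool.Agent.Lib.MP_e057d9_co
end

-- part Pool.Agent.Lib.MP_e057d9_co.Base
section

/-!
The generating function at the trivial specialisation.
-/

open Finset

namespace Pool.Agent.Lib.MP_e057d9_co

variable {R : Type*} [CommRing R]

/-- the coefficient sequence of the series `1` -/
def delta : ℤ → R := fun k => if k = 0 then 1 else 0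

lemma good_delta : Good (delta : ℤ → R) :=
  ⟨fun k hk => by simp [delta, hk.ne], by simp [delta]⟩

lemma Odet_delta_big (N : ℕ) (l : ℕ → ℕ) (h : N + 2 < l 0) :
    Odet (N + 1) (delta : ℤ → R) l = 0 := by
  refine Matrix.det_eq_zero_of_row_eq_zero 0 fun j => ?_
  have := j.2
  simp only [Matrix.of_apply, ent, delta, Fin.val_zero]
  rw [if_neg (by omega), if_neg (by omega), sub_zero]

lemma Odet_delta_small (N : ℕ) (l : ℕ → ℕ) (hl : Antitone l) (h : l 0 < N + 2) (h' : l N ≠ 0) :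
    Odet (N + 1) (delta : ℤ → R) l = 0 := by
  refine Matrix.det_eq_zero_of_column_eq_zero (Fin.last N) fun i => ?_
  have h1 := i.2
  have h2 := hl (Nat.zero_le i)
  have h3 := hl (show (i : ℕ) ≤ N by omega)
  simp only [Matrix.of_apply, ent, delta, Fin.val_last]
  rw [if_neg (by omega), if_neg (by omega), sub_zero]

lemma Odet_delta_eq (N : ℕ) (l : ℕ → ℕ) (hl : Antitone l) (h : l 0 = N + 2) (h' : l N ≠ 0) :
    Odet (N + 1) (delta : ℤ → R) l = (-1) ^ (N + 1) * Odet N delta (fun i => l (i + 1) - 1) := by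
  rw [Odet, Matrix.det_succ_row_zero, Fin.sum_univ_castSucc, Finset.sum_eq_zero]
  · simp only [Fin.val_last, Matrix.of_apply, Fin.val_zero, Fin.succAbove_last, zero_add]
    have e : ent (delta : ℤ → R) ((l 0 : ℤ) - (((0 : ℕ) : ℤ) + 1)) N = -1 := by
      simp only [ent, delta]
      rw [if_neg (by omega), if_pos (by omega), zero_sub]
    rw [e, pow_succ]
    congr 1
    unfold Odet
    congr 1
    ext i j
    simp only [Matrix.submatrix_apply, Matrix.of_apply, Fin.val_succ, Fin.val_castSucc]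
    congr 1
    have := hl (show (i : ℕ) + 1 ≤ N by have := i.2; omega)
    omega
  · intro j _
    have := j.2
    simp only [Matrix.of_apply, ent, delta, Fin.val_zero, Fin.val_castSucc]
    rw [if_neg (by omega), if_neg (by omega)]
    simp

theorem base (x : R) (N : ℕ) : ∀ M, N + 1 ≤ M →
    Fgen N M x delta = ∏ j ∈ range N, (1 + (-1) ^ (j + 1) * x ^ (2 * (j + 1))) := by
  induction N with
  | zero =>
    intro M _
    have : Par 0 M = {fun _ => 0} := by
      ext l
      simp only [mem_Par, mem_singleton]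
      constructor
      · rintro ⟨h1, h2, -⟩
        funext i
        have := h1 (Nat.zero_le i)
        omega
      · rintro rfl
        exact ⟨antitone_const, rfl, Nat.zero_le _⟩
    simp [Fgen, this, sz, Odet]
  | succ N ih =>
    intro M hM
    classical
    rw [prod_range_succ, mul_add, mul_one, Fgen,
      ← sum_filter_add_sum_filter_not _ (fun l : ℕ → ℕ => l N = 0)]
    congr 1
    · rw [← ih M (by omega), Fgen]
      have : (Par (N + 1) M).filter (fun l : ℕ → ℕ => l N = 0) = Par N M := by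
        ext l
        simp only [mem_filter, mem_Par]
        constructor
        · rintro ⟨⟨h1, -, h3⟩, h4⟩
          exact ⟨h1, h4, h3⟩
        · rintro ⟨h1, h2, h3⟩
          have := h1 (show N ≤ N + 1 by omega)
          exact ⟨⟨h1, by omega, h3⟩, h2⟩
      rw [this]
      refine sum_congr rfl fun l hl => ?_
      have h2 := (mem_Par.1 hl).2.1
      rw [Odet_succ good_delta N l h2, sz, sum_range_succ, h2, add_zero, sz]
    · rw [← ih (N + 1) le_rfl, Fgen, sum_mul,
        ← sum_filter_add_sum_filter_not _ (fun l : ℕ → ℕ => l 0 = N + 2)]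
      rw [sum_eq_zero (s := filter (fun l : ℕ → ℕ => ¬ l 0 = N + 2) _), add_zero]
      · refine sum_nbij' (fun l i => l (i + 1) - 1)
          (fun μ i => if i = 0 then N + 2 else if i ≤ N then μ (i - 1) + 1 else 0) ?_ ?_ ?_ ?_ ?_
        · intro l hl
          simp only [mem_filter, mem_Par] at hl ⊢
          obtain ⟨⟨⟨h1, h2, h3⟩, h4⟩, h5⟩ := hl
          refine ⟨fun i j hij => ?_, by omega, ?_⟩
          · have := h1 (show i + 1 ≤ j + 1 by omega)
            simp only; omega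
          · have := h1 (show 0 ≤ 0 + 1 by omega)
            omega
        · intro μ hμ
          simp only [mem_filter, mem_Par] at hμ ⊢
          obtain ⟨h1, h2, h3⟩ := hμ
          refine ⟨⟨⟨antitone_nat_of_succ_le fun i => ?_, by simp, by simp; omega⟩, ?_⟩, by simp⟩
          · have a1 := h1 (show i - 1 ≤ i by omega)
            have a2 := h1 (show 0 ≤ i by omega)
            simp only [Nat.add_sub_cancel, if_neg (Nat.succ_ne_zero i)]
            split_ifs <;> omega
          · by_cases hN0 : N = 0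
            · simp [hN0]
            · simp [hN0]
        · intro l hl
          simp only [mem_filter, mem_Par] at hl
          obtain ⟨⟨⟨h1, h2, h3⟩, h4⟩, h5⟩ := hl
          funext i
          by_cases hi : i = 0
          · simp [hi, h5]
          · by_cases hi' : i ≤ N
            · have := h1 hi'
              simp only [if_neg hi, if_pos hi', show i - 1 + 1 = i by omega]
              omega
            · have := h1 (show N + 1 ≤ i by omega)
              simp only [if_neg hi, if_neg hi']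
              omega
        · intro μ hμ
          obtain ⟨h1, h2, h3⟩ := mem_Par.1 hμ
          funext i
          by_cases hi' : i + 1 ≤ N
          · simp [hi']
          · have := h1 (show N ≤ i by omega)
            simp only [if_neg hi', if_neg (Nat.succ_ne_zero i)]
            omega
        · intro l hl
          simp only [mem_filter, mem_Par] at hl
          obtain ⟨⟨⟨h1, h2, h3⟩, h4⟩, h5⟩ := hl
          rw [Odet_delta_eq N l h1 h5 h4]
          have : sz (N + 1) l = sz N (fun i => l (i + 1) - 1) + 2 * (N + 1) := by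
            rw [sz, sz, sum_range_succ', h5]
            have : ∑ i ∈ range N, l (i + 1) = ∑ i ∈ range N, ((l (i + 1) - 1) + 1) := by
              refine sum_congr rfl fun i hi => ?_
              have := h1 (show i + 1 ≤ N by have := mem_range.1 hi; omega)
              omega
            rw [this, sum_add_distrib]
            simp; ring
          rw [this, pow_add]; ring
      · intro l hl
        simp only [mem_filter, mem_Par] at hl
        obtain ⟨⟨⟨h1, h2, h3⟩, h4⟩, h5⟩ := hl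
        rcases lt_or_gt_of_ne h5 with h | h
        · rw [Odet_delta_small N l h1 h h4, mul_zero]
        · rw [Odet_delta_big N l h, mul_zero]

end Pool.Agent.Lib.MP_e057d9_co
end

-- part Pool.Agent.Lib.MP_e057d9_co.Weyl
section

/-!
Evaluation of the determinant at the specialisation `(1 - z)^(-t)`: a Weyl dimension formula.
-/

open Finset Polynomial

namespace Pool.Agent.Lib.MP_e057d9_co

/-- coefficients of `(1 - z)^(-t)` -/
def hq (R : Type*) [CommRing R] (t : ℕ) : ℤ → R :=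
  fun k => if 0 ≤ k then (Nat.multichoose t k.toNat : R) else 0

section
variable (R : Type*) [CommRing R]

lemma good_hq (t : ℕ) : Good (hq R t) :=
  ⟨fun k hk => by simp [hq, not_le.2 hk], by simp [hq]⟩

lemma hq_zero : hq R 0 = delta := by
  funext k
  simp only [hq, delta]
  by_cases h : k = 0
  · simp [h]
  · rw [if_neg h]
    split_ifs with h'
    · obtain ⟨m, hm⟩ : ∃ m, k.toNat = m + 1 := ⟨k.toNat - 1, by omega⟩
      rw [hm]; simp
    · rfl

lemma Lm_hq (t : ℕ) : Lm 1 (hq R (t + 1)) = hq R t := by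
  funext k
  simp only [Lm, hq, one_mul]
  rcases lt_trichotomy k 0 with h | h | h
  · rw [if_neg (by omega), if_neg (by omega), if_neg (by omega), sub_zero]
  · subst h; simp
  · rw [if_pos h.le, if_pos (by omega), if_pos h.le]
    obtain ⟨m, hm⟩ : ∃ m, k.toNat = m + 1 := ⟨k.toNat - 1, by omega⟩
    rw [hm, show (k - 1).toNat = m by omega, Nat.multichoose_succ_succ]
    push_cast; ring

variable {R}

lemma Odet_empty {h : ℤ → R} (hh : Good h) (N : ℕ) : Odet N h (fun _ => 0) = 1 := by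
  induction N with
  | zero => simp [Odet]
  | succ N ih => rw [Odet_succ hh N _ rfl, ih]

lemma map_Odet {S : Type*} [CommRing S] (φ : R →+* S) (N t : ℕ) (l : ℕ → ℕ) :
    φ (Odet N (hq R t) l) = Odet N (hq S t) l := by
  rw [Odet, Odet, RingHom.map_det]
  congr 1
  ext i j
  simp only [RingHom.mapMatrix_apply, Matrix.map_apply, Matrix.of_apply, ent, hq, map_sub]
  congr 1 <;> split_ifs <;> simp

end

/-- factorial of an integer -/
def fz (m : ℤ) : ℚ := (m.toNat.factorial : ℚ)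

lemma fz_ne (m : ℤ) : fz m ≠ 0 := by
  unfold fz; exact_mod_cast (Nat.factorial_pos _).ne'

lemma fz_succ {m : ℤ} (hm : 0 ≤ m) : fz (m + 1) = (m + 1) * fz m := by
  unfold fz
  rw [show (m + 1).toNat = m.toNat + 1 by omega, Nat.factorial_succ]
  have : ((m.toNat : ℕ) : ℚ) = (m : ℚ) := by
    have : ((m.toNat : ℕ) : ℤ) = m := by omega
    exact_mod_cast this
  push_cast; rw [this]

lemma fz_zero : fz 0 = 1 := by simp [fz]

lemma fz_add {m : ℤ} (hm : 0 ≤ m) (s : ℕ) :
    fz (m + s) = fz m * ∏ i ∈ range s, ((m : ℚ) + 1 + i) := by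
  induction s with
  | zero => simp
  | succ s ih =>
    rw [show m + ((s + 1 : ℕ) : ℤ) = (m + s) + 1 by push_cast; ring, fz_succ (by omega), ih,
      prod_range_succ]
    push_cast; ring

lemma fz_sub {m : ℤ} (s : ℕ) (hm : (s : ℤ) ≤ m) :
    fz m = fz (m - s) * ∏ i ∈ range s, ((m : ℚ) - i) := by
  induction s with
  | zero => simp
  | succ s ih =>
    have hs : (s : ℤ) + 1 ≤ m := by exact_mod_cast hm
    rw [ih (by omega), prod_range_succ, show m - s = (m - ((s + 1 : ℕ) : ℤ)) + 1 by push_cast; ring,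
      fz_succ (by push_cast; omega)]
    push_cast; ring

lemma hq_eq (t : ℕ) (ht : 1 ≤ t) {m : ℤ} (hm : 0 ≤ m) :
    hq ℚ t m = fz (t - 1 + m) / (fz (t - 1) * fz m) := by
  obtain ⟨k, rfl⟩ := Int.eq_ofNat_of_zero_le hm
  obtain ⟨s, rfl⟩ : ∃ s, t = s + 1 := ⟨t - 1, by omega⟩
  simp only [hq, if_pos hm, Int.toNat_natCast, Nat.multichoose_eq, fz]
  rw [show s + 1 + k - 1 = s + k by omega, show (((s + 1 : ℕ) : ℤ) - 1 + k).toNat = s + k by omega,
    show (((s + 1 : ℕ) : ℤ) - 1).toNat = s by omega, Nat.cast_choose _ (Nat.le_add_left k s),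
    show s + k - k = s by omega, mul_comm]

/-- the polynomial part of a matrix entry -/
noncomputable def Xp (t N σ : ℕ) : ℚ[X] :=
  (∏ m ∈ range σ, (X + C ((t : ℚ) - N + m))) * ∏ m ∈ range (2 * N - σ), (X + C ((N : ℚ) - m))

lemma Xp_natDegree (t N σ : ℕ) (hσ : σ ≤ 2 * N) : (Xp t N σ).natDegree ≤ 2 * N := by
  unfold Xp
  refine natDegree_mul_le.trans ?_
  have h1 : (∏ m ∈ range σ, (X + C ((t : ℚ) - N + m))).natDegree ≤ σ := by
    refine (natDegree_prod_le _ _).trans ?_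
    simp only [natDegree_X_add_C]; simp
  have h2 : (∏ m ∈ range (2 * N - σ), (X + C ((N : ℚ) - m))).natDegree ≤ 2 * N - σ := by
    refine (natDegree_prod_le _ _).trans ?_
    simp only [natDegree_X_add_C]; simp
  omega

lemma Xp_eval (t N σ : ℕ) (a : ℚ) : (Xp t N σ).eval a =
    (∏ m ∈ range σ, (a + (t - N + m))) * ∏ m ∈ range (2 * N - σ), (a + (N - m)) := by
  simp [Xp, eval_prod]

lemma Xp_reflect (t N σ : ℕ) (hσ : σ ≤ 2 * N) (a : ℚ) :
    (Xp t N σ).eval (-t - a) = (Xp t N (2 * N - σ)).eval a := by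
  rw [Xp_eval, Xp_eval, show 2 * N - (2 * N - σ) = σ by omega]
  have h1 : ∏ m ∈ range σ, (-(t : ℚ) - a + (t - N + m)) =
      (-1) ^ σ * ∏ m ∈ range σ, (a + (N - m)) := by
    rw [← card_range σ, ← prod_const, card_range, ← prod_mul_distrib]
    refine prod_congr rfl fun m _ => by ring
  have h2 : ∏ m ∈ range (2 * N - σ), (-(t : ℚ) - a + (N - m)) =
      (-1) ^ (2 * N - σ) * ∏ m ∈ range (2 * N - σ), (a + (t - N + m)) := by
    rw [← card_range (2 * N - σ), ← prod_const, card_range, ← prod_mul_distrib]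
    refine prod_congr rfl fun m _ => by ring
  have h3 : (-1 : ℚ) ^ σ * (-1) ^ (2 * N - σ) = 1 := by
    rw [← pow_add, show σ + (2 * N - σ) = 2 * N by omega, pow_mul]; simp
  rw [h1, h2]
  linear_combination (∏ m ∈ range σ, (a + ((N : ℚ) - m))) *
    (∏ m ∈ range (2 * N - σ), (a + ((t : ℚ) - N + m))) * h3

lemma hq_eq_Xp {t N : ℕ} (ht : 2 * N + 1 ≤ t) {σ : ℕ} (hσ : σ ≤ 2 * N) {a : ℤ}
    (ha : -(N : ℤ) ≤ a) :
    hq ℚ t (a + σ - N) = fz (t + a - N - 1) / (fz (t - 1) * fz (a + N)) * (Xp t N σ).eval (a : ℚ) := by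
  rw [Xp_eval]
  by_cases h : 0 ≤ a + σ - N
  · rw [hq_eq t (by omega) h]
    have e1 := fz_add (m := t + a - N - 1) (by omega) σ
    have e2 := fz_sub (m := a + N) (2 * N - σ) (by omega)
    rw [show (t : ℤ) + a - N - 1 + σ = t - 1 + (a + σ - N) by ring] at e1
    rw [show a + N - ((2 * N - σ : ℕ) : ℤ) = a + σ - N by omega] at e2
    have p1 : ∏ i ∈ range σ, ((((t : ℤ) + a - N - 1 : ℤ) : ℚ) + 1 + i) =
        ∏ m ∈ range σ, ((a : ℚ) + (t - N + m)) := prod_congr rfl fun m _ => by push_cast; ring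
    have p2 : ∏ i ∈ range (2 * N - σ), (((a + N : ℤ) : ℚ) - i) =
        ∏ m ∈ range (2 * N - σ), ((a : ℚ) + (N - m)) :=
      prod_congr rfl fun m _ => by push_cast; ring
    rw [p1] at e1
    rw [p2] at e2
    have hne : ∏ m ∈ range (2 * N - σ), ((a : ℚ) + (N - m)) ≠ 0 := by
      intro h0
      rw [h0, mul_zero] at e2
      exact fz_ne _ e2
    rw [e1, e2]
    have := fz_ne (t - 1)
    have := fz_ne (a + σ - N)
    field_simp
  · rw [(good_hq ℚ t).1 _ (by omega)]
    have : ∏ m ∈ range (2 * N - σ), ((a : ℚ) + (N - m)) = 0 := by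
      refine prod_eq_zero (i := (a + N).toNat) (mem_range.2 (by omega)) ?_
      have : (((a + N).toNat : ℕ) : ℤ) = a + N := by omega
      have : (((a + N).toNat : ℕ) : ℚ) = a + N := by exact_mod_cast this
      rw [this]; ring
    rw [this]; simp

/-- auxiliary polynomials for the odd part under the reflection -/
noncomputable def Zp (t : ℚ) : ℕ → ℚ[X]
  | 0 => 0
  | 1 => 1
  | (n + 2) => C (-t) * Zp t (n + 1) + X * Zp t n

lemma Zp_eval (t a : ℚ) : ∀ n : ℕ, a ^ n - (-t - a) ^ n = (2 * a + t) * (Zp t n).eval (a * (a + t))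
  | 0 => by simp [Zp]
  | 1 => by simp [Zp]; ring
  | (n + 2) => by
    have h1 := Zp_eval t a (n + 1)
    have h2 := Zp_eval t a n
    simp only [Zp, eval_add, eval_mul, eval_C, eval_X]
    linear_combination (-t) * h1 + (a * (a + t)) * h2

lemma Zp_coeff (t : ℚ) : ∀ n k : ℕ, (n + 1) / 2 ≤ k → (Zp t n).coeff k = 0
  | 0, _, _ => by simp [Zp]
  | 1, k, h => by
    simp only [Zp]
    rw [coeff_one, if_neg (by omega)]
  | (n + 2), k, h => by
    obtain ⟨k, rfl⟩ : ∃ k', k = k' + 1 := ⟨k - 1, by omega⟩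
    simp only [Zp, coeff_add, coeff_C_mul, coeff_X_mul]
    rw [Zp_coeff t (n + 1) _ (by omega), Zp_coeff t n _ (by omega)]
    simp

lemma odd_part (t : ℚ) (N : ℕ) (hN : 1 ≤ N) (p : ℚ[X]) (hp : p.natDegree ≤ 2 * N) :
    ∃ c : ℕ → ℚ, ∀ a : ℚ, p.eval a - p.eval (-t - a) =
      (2 * a + t) * ∑ k ∈ range N, (a * (a + t)) ^ k * c k := by
  let Q : ℚ[X] := ∑ n ∈ range (2 * N + 1), C (p.coeff n) * Zp t n
  have hQ : Q.natDegree < N := by
    have : Q.natDegree ≤ N - 1 := by
      rw [natDegree_le_iff_coeff_eq_zero]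
      intro k hk
      simp only [Q, finsetSum_coeff, coeff_C_mul]
      refine sum_eq_zero fun n hn => ?_
      have := mem_range.1 hn
      rw [Zp_coeff t n k (by omega), mul_zero]
    omega
  refine ⟨fun k => Q.coeff k, fun a => ?_⟩
  have e1 : ∑ k ∈ range N, (a * (a + t)) ^ k * Q.coeff k = Q.eval (a * (a + t)) := by
    rw [eval_eq_sum_range' hQ]
    exact sum_congr rfl fun k _ => mul_comm _ _
  rw [e1, eval_eq_sum_range' (n := 2 * N + 1) (by omega),
    eval_eq_sum_range' (n := 2 * N + 1) (p := p) (by omega), ← sum_sub_distrib]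
  simp only [Q, eval_finsetSum, eval_mul, eval_C, mul_sum]
  refine sum_congr rfl fun n _ => ?_
  rw [← mul_sub, Zp_eval]; ring

/-- the Weyl product -/
def Rw (t N : ℕ) (a : ℕ → ℤ) : ℚ :=
  (∏ i ∈ range N, fz (t + a i - N - 1) / fz (a i + N) * (2 * a i + t)) *
    ∏ i ∈ range N, ∏ k ∈ range i, (((a k : ℚ) - a i) * (a k + a i + t))

lemma prod_Ioi_eq (N : ℕ) (g : ℕ → ℕ → ℚ) :
    ∏ i : Fin N, ∏ j ∈ Ioi i, g i j = ∏ j ∈ range N, ∏ i ∈ range j, g i j := by
  rw [prod_comm' (t' := univ) (s' := fun j => Iio j) (by simp),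
    ← Fin.prod_univ_eq_prod_range (fun j => ∏ i ∈ range j, g i j)]
  refine prod_congr rfl fun j _ => ?_
  refine prod_bij (fun i _ => (i : ℕ)) ?_ ?_ ?_ ?_
  · intro i hi; simpa using hi
  · intro i _ k _ h; exact Fin.ext h
  · intro i hi
    have := mem_range.1 hi
    exact ⟨⟨i, this.trans j.2⟩, by simpa [Fin.lt_def] using this, rfl⟩
  · intro i _; rfl

theorem weyl {t N : ℕ} (ht : 2 * N + 1 ≤ t) :
    ∃ κ : ℚ, ∀ l : ℕ → ℕ, Odet N (hq ℚ t) l = κ * Rw t N (fun i => (l i : ℤ) - (i + 1)) := by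
  rcases Nat.eq_zero_or_pos N with rfl | hN
  · exact ⟨1, fun l => by simp [Odet, Rw]⟩
  have hc : ∀ j : Fin N, ∃ c : ℕ → ℚ, ∀ a : ℚ,
      (Xp t N (N + j + 1)).eval a - (Xp t N (N + j + 1)).eval (-t - a) =
        (2 * a + t) * ∑ k ∈ range N, (a * (a + t)) ^ k * c k := fun j =>
    odd_part t N hN _ (Xp_natDegree t N _ (by have := j.2; omega))
  choose c hc using hc
  let Cm : Matrix (Fin N) (Fin N) ℚ := Matrix.of fun k j => c j k
  refine ⟨Cm.det * (1 / fz (t - 1)) ^ N * ∏ j ∈ range N, ∏ _i ∈ range j, (-1), fun l => ?_⟩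
  set a : ℕ → ℤ := fun i => (l i : ℤ) - (i + 1) with ha
  let u : Fin N → ℚ := fun i => (a i : ℚ) * (a i + t)
  have hM : (Matrix.of fun i j : Fin N => ent (hq ℚ t) ((l i : ℤ) - ((i : ℕ) + 1)) j) =
      Matrix.of fun i j : Fin N => (fz (t + a i - N - 1) / (fz (t - 1) * fz (a i + N)) *
        (2 * a i + t)) * (Matrix.vandermonde u * Cm) i j := by
    ext i j
    have hi := i.2
    have hj := j.2
    have hai : -(N : ℤ) ≤ a i := by simp only [ha]; omega
    have e1 := hq_eq_Xp ht (σ := N + j + 1) (by omega) hai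
    have e2 := hq_eq_Xp ht (σ := 2 * N - (N + j + 1)) (by omega) hai
    rw [← Xp_reflect t N _ (by omega)] at e2
    rw [show a i + ((N + j + 1 : ℕ) : ℤ) - N = a i + ((j : ℕ) + 1) by push_cast; ring] at e1
    rw [show a i + ((2 * N - (N + j + 1) : ℕ) : ℤ) - N = a i - ((j : ℕ) + 1) by omega] at e2
    simp only [Matrix.of_apply, ent]
    change hq ℚ t (a i + _) - hq ℚ t (a i - _) = _
    rw [e1, e2, ← mul_sub, hc j, Matrix.mul_apply,
      ← Fin.sum_univ_eq_sum_range (fun k => ((a i : ℚ) * (a i + t)) ^ k * c j k)]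
    simp only [Matrix.vandermonde_apply, Cm, Matrix.of_apply, u]
    ring
  rw [Odet, hM, Matrix.det_mul_column, Matrix.det_mul, Matrix.det_vandermonde,
    prod_Ioi_eq N (fun i j => (a j : ℚ) * (a j + t) - (a i : ℚ) * (a i + t)),
    Fin.prod_univ_eq_prod_range (fun i => fz (t + a i - N - 1) / (fz (t - 1) * fz (a i + N)) *
        (2 * a i + t)), Rw]
  have p1 : ∏ i ∈ range N, fz (t + a i - N - 1) / (fz (t - 1) * fz (a i + N)) * (2 * a i + t) =
      (1 / fz (t - 1)) ^ N * ∏ i ∈ range N, fz (t + a i - N - 1) / fz (a i + N) * (2 * a i + t) := by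
    conv_rhs => rw [← card_range N, ← prod_const, card_range, ← prod_mul_distrib]
    refine prod_congr rfl fun i _ => ?_
    have := fz_ne (t - 1)
    have := fz_ne (a i + N)
    field_simp
  have p2 : ∏ j ∈ range N, ∏ i ∈ range j, ((a j : ℚ) * (a j + t) - (a i : ℚ) * (a i + t)) =
      (∏ j ∈ range N, ∏ _i ∈ range j, (-1 : ℚ)) *
        ∏ i ∈ range N, ∏ k ∈ range i, (((a k : ℚ) - a i) * (a k + a i + t)) := by
    rw [← prod_mul_distrib]
    refine prod_congr rfl fun j _ => ?_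
    rw [← prod_mul_distrib]
    refine prod_congr rfl fun i _ => by ring
  rw [p1, p2]; ring

end Pool.Agent.Lib.MP_e057d9_co
end

-- part Pool.Agent.Lib.MP_e057d9_co.Iter
section

/-!
Iterating the functional equation: the product formula for natural numbers `t`, over a ring with
a nilpotent element `x`.
-/

open Finset

namespace Pool.Agent.Lib.MP_e057d9_co

variable {R : Type*} [CommRing R]

/-- division of the series by `1 - y z` -/
def Dv (y : R) (h : ℤ → R) : ℤ → R := fun k => ∑ m ∈ range (k.toNat + 1), y ^ m * h (k - m)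

lemma Good.Dv {h : ℤ → R} (hh : Good h) (y : R) : Good (Dv y h) := by
  refine ⟨fun k hk => ?_, ?_⟩
  · simp only [MP_e057d9_co.Dv]
    refine sum_eq_zero fun m _ => ?_
    rw [hh.1 _ (by omega), mul_zero]
  · simp [MP_e057d9_co.Dv, hh.2]

lemma Lm_Dv {h : ℤ → R} (hh : Good h) (y : R) : Lm y (Dv y h) = h := by
  funext k
  by_cases hk : k ≤ 0
  · rw [Lm, (hh.Dv y).1 (k - 1) (by omega), mul_zero, sub_zero, Dv,
      show k.toNat = 0 by omega]
    simp
  · simp only [Lm, Dv]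
    rw [sum_range_succ', show (k - 1).toNat + 1 = k.toNat by omega, mul_sum]
    have : ∑ m ∈ range k.toNat, y ^ (m + 1) * h (k - ((m + 1 : ℕ) : ℤ)) =
        ∑ m ∈ range k.toNat, y * (y ^ m * h (k - 1 - m)) := by
      refine sum_congr rfl fun m _ => ?_
      rw [show k - ((m + 1 : ℕ) : ℤ) = k - 1 - m by push_cast; ring, pow_succ]; ring
    rw [this]; simp

lemma Lm_inj {g g' : ℤ → R} (hg : Good g) (hg' : Good g') {y : R} (h : Lm y g = Lm y g') :
    g = g' := by
  have key : ∀ m : ℕ, g ((m : ℤ) - 1) = g' ((m : ℤ) - 1) := by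
    intro m
    induction m with
    | zero => rw [hg.1 _ (by omega), hg'.1 _ (by omega)]
    | succ m ih =>
      have := congrFun h m
      simp only [Lm] at this
      rw [show ((m + 1 : ℕ) : ℤ) - 1 = m by push_cast; ring]
      rw [ih] at this
      linear_combination this
  funext k
  by_cases hk : k < 0
  · rw [hg.1 k hk, hg'.1 k hk]
  · have := key (k + 1).toNat
    rwa [show (((k + 1).toNat : ℕ) : ℤ) - 1 = k by omega] at this

lemma Lm_zero (h : ℤ → R) : Lm 0 h = h := by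
  funext k; simp [Lm]

lemma ev_Lm {w : R} {K : ℕ} (hw : w ^ (K + 1) = 0) {h : ℤ → R} (hh : Good h) (y : R) :
    Dn w K (Lm y h) 0 = (1 - y * w) * Dn w K h 0 := by
  have e1 : Dn w K (Lm y h) 0 = Dn w K h 0 - y * Dn w K h (-1) := by
    simp only [Dn, Lm, mul_sum, ← sum_sub_distrib]
    refine sum_congr rfl fun m _ => ?_
    rw [show (0 : ℤ) + m - 1 = -1 + m by ring]; ring
  have e2 := Dn_rec hw h (-1)
  rw [hh.1 _ (by omega), show (-1 : ℤ) + 1 = 0 by ring] at e2
  rw [e1]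
  linear_combination (-y) * e2

lemma ev_delta (w : R) (K : ℕ) : Dn w K delta 0 = 1 := by
  rw [Dn, sum_range_succ', sum_eq_zero]
  · simp [delta]
  · intro m _
    simp only [delta]
    rw [if_neg (by omega), mul_zero]

section step

variable {x : R} {n N M : ℕ}

lemma step_k (hx : x ^ (n + 1) = 0) (hN : n ≤ N) (hM : 2 * n ≤ M) {A : ℤ → R} (hA : Good A)
    (t : ℕ) (hev : ∀ w : R, w ^ (n + 1) = 0 → Dn w n A 0 * (1 - w) ^ t = 1) (k : ℕ) :
    Fgen (N + 1) M x (Dv (x ^ (4 * k)) A) *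
        ((1 - x ^ (4 * k + 1)) * (1 - x ^ (8 * k + 6)) * (1 - x ^ (4 * k + 2)) ^ t) =
      Fgen (N + 1) M x (Dv (x ^ (4 * (k + 1))) A) *
        ((1 - x ^ (4 * k + 3)) * (1 - x ^ (8 * k + 4)) * (1 - x ^ (4 * k + 4)) ^ t) := by
  have hnil : ∀ m, 1 ≤ m → (x ^ m) ^ (n + 1) = 0 := by
    intro m hm
    rw [← pow_mul]
    exact pow_eq_zero_of_le' hx (by nlinarith)
  have h1 := star hx (x ^ (4 * k)) hN hM (hA.Dv (x ^ (4 * k)))
  rw [Lm_Dv hA, show x ^ 2 * x ^ (4 * k) = x ^ (4 * k + 2) by ring] at h1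
  have h2 := star hx (x ^ (4 * k + 2)) hN hM (hA.Dv (x ^ (4 * (k + 1))))
  rw [show x ^ 2 * x ^ (4 * k + 2) = x ^ (4 * (k + 1)) by ring, Lm_comm, Lm_Dv hA,
    ev_Lm (hnil _ (by omega)) (hA.Dv _)] at h2
  have h3 := ev_Lm (hnil (4 * (k + 1)) (by omega)) (hA.Dv (x ^ (4 * (k + 1))))
    (x ^ (4 * (k + 1)))
  rw [Lm_Dv hA] at h3
  have h4 := hev (x ^ (4 * k + 2)) (hnil _ (by omega))
  have h5 := hev (x ^ (4 * (k + 1))) (hnil _ (by omega))
  set u := Fgen (N + 1) M x (Dv (x ^ (4 * k)) A)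
  set u' := Fgen (N + 1) M x (Dv (x ^ (4 * (k + 1))) A)
  set v := Fgen (N + 1) M x (Lm (x ^ (4 * k + 2)) A)
  set e1 := Dn (x ^ (4 * k + 2)) n A 0
  set e2 := Dn (x ^ (4 * (k + 1))) n A 0
  set e3 := Dn (x ^ (4 * (k + 1))) n (Dv (x ^ (4 * (k + 1))) A) 0
  have a1 : u * ((1 - x ^ (4 * k + 1)) * (1 - x ^ (4 * k + 2)) ^ t) =
      (1 - x ^ (8 * k + 4)) * v := by
    have : (1 - x ^ (4 * k + 1)) * u = (1 - x ^ (8 * k + 4)) * e1 * v := by
      rw [show x ^ (4 * k + 1) = x * x ^ (4 * k) by ring, h1]; ring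
    calc u * ((1 - x ^ (4 * k + 1)) * (1 - x ^ (4 * k + 2)) ^ t)
        = ((1 - x ^ (4 * k + 1)) * u) * (1 - x ^ (4 * k + 2)) ^ t := by ring
      _ = (1 - x ^ (8 * k + 4)) * v * (e1 * (1 - x ^ (4 * k + 2)) ^ t) := by rw [this]; ring
      _ = _ := by rw [h4, mul_one]
  have a2 : u' * ((1 - x ^ (4 * k + 3)) * (1 - x ^ (4 * k + 4)) ^ t) =
      (1 - x ^ (8 * k + 6)) * v := by
    have : (1 - x ^ (4 * k + 3)) * u' = (1 - x ^ (8 * k + 6)) * e2 * v := by
      rw [show x ^ (4 * k + 3) = x * x ^ (4 * k + 2) by ring, h2, h3]; ring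
    calc u' * ((1 - x ^ (4 * k + 3)) * (1 - x ^ (4 * k + 4)) ^ t)
        = ((1 - x ^ (4 * k + 3)) * u') * (1 - x ^ (4 * (k + 1))) ^ t := by
          rw [show 4 * (k + 1) = 4 * k + 4 by ring]; ring
      _ = (1 - x ^ (8 * k + 6)) * v * (e2 * (1 - x ^ (4 * (k + 1))) ^ t) := by rw [this]; ring
      _ = _ := by rw [h5, mul_one]
  linear_combination (1 - x ^ (8 * k + 6)) * a1 - (1 - x ^ (8 * k + 4)) * a2

lemma step_all (hx : x ^ (n + 1) = 0) (hN : n ≤ N) (hM : 2 * n ≤ M) {A : ℤ → R} (hA : Good A)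
    (t : ℕ) (hev : ∀ w : R, w ^ (n + 1) = 0 → Dn w n A 0 * (1 - w) ^ t = 1) (K : ℕ) :
    Fgen (N + 1) M x (Dv 1 A) * ∏ k ∈ range K,
        ((1 - x ^ (4 * k + 1)) * (1 - x ^ (8 * k + 6)) * (1 - x ^ (4 * k + 2)) ^ t) =
      Fgen (N + 1) M x (Dv (x ^ (4 * K)) A) * ∏ k ∈ range K,
        ((1 - x ^ (4 * k + 3)) * (1 - x ^ (8 * k + 4)) * (1 - x ^ (4 * k + 4)) ^ t) := by
  induction K with
  | zero => simp
  | succ K ih =>
    rw [prod_range_succ, prod_range_succ, ← mul_assoc, ih]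
    have := step_k hx hN hM hA t hev K
    linear_combination (∏ k ∈ range K,
        ((1 - x ^ (4 * k + 3)) * (1 - x ^ (8 * k + 4)) * (1 - x ^ (4 * k + 4)) ^ t)) * this

end step

lemma prod_range_double (g : ℕ → R) (J : ℕ) :
    ∏ j ∈ range (2 * J), g j = ∏ j ∈ range J, (g (2 * j) * g (2 * j + 1)) := by
  induction J with
  | zero => simp
  | succ J ih =>
    rw [show 2 * (J + 1) = 2 * J + 1 + 1 by ring, prod_range_succ, prod_range_succ,
      prod_range_succ, ih, mul_assoc]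

lemma split_prod {q : R} {n : ℕ} (hq : q ^ (n + 1) = 0) {J : ℕ} (hJ : n < J) (s r : ℕ)
    (hs : 1 ≤ s) :
    ∏ j ∈ range J, ((1 - q ^ (2 * s * j + r)) * (1 - q ^ (2 * s * j + (s + r)))) =
      ∏ j ∈ range J, (1 - q ^ (s * j + r)) := by
  have h1 := prod_range_double (fun j => 1 - q ^ (s * j + r)) J
  have h2 : ∏ j ∈ range (2 * J), (1 - q ^ (s * j + r)) = ∏ j ∈ range J, (1 - q ^ (s * j + r)) := by
    symm
    refine prod_subset (range_subset_range.2 (by omega)) fun j _ hj => ?_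
    have : J ≤ j := by simpa using hj
    rw [pow_eq_zero_of_le' hq (by nlinarith), sub_zero]
  rw [← h2, h1]
  refine prod_congr rfl fun j _ => ?_
  congr 3 <;> ring

lemma isUnit_one_sub_pow {q : R} {n : ℕ} (hq : q ^ (n + 1) = 0) {k : ℕ} (hk : 1 ≤ k) :
    IsUnit (1 - q ^ k) := by
  refine IsNilpotent.isUnit_one_sub ⟨n + 1, ?_⟩
  rw [← pow_mul]
  exact pow_eq_zero_of_le' hq (by nlinarith)

lemma euler {q : R} {n : ℕ} (hq : q ^ (n + 1) = 0) {J : ℕ} (hJ : n < J) :
    (∏ j ∈ range J, (1 + q ^ (j + 1))) * ∏ j ∈ range J, (1 - q ^ (2 * j + 1)) = 1 := by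
  have hu : IsUnit (∏ j ∈ range J, (1 - q ^ (j + 1))) :=
    IsUnit.prod_iff.2 fun j _ => isUnit_one_sub_pow hq (by omega)
  apply hu.mul_left_cancel
  have h := split_prod hq hJ 1 1 le_rfl
  simp only [one_mul, mul_one] at h
  rw [mul_one, ← mul_assoc, ← prod_mul_distrib, ← prod_mul_distrib]
  refine Eq.trans (prod_congr rfl fun j _ => ?_) h
  ring

/-- the truncated product, in terms of abstract binomial series -/
def Prd (B : ℕ → ℚ → R) (J : ℕ) (t : ℚ) : R :=
  ∏ j ∈ range J, (B (8 * j + 8) (t * (t - 1) / 2) * B (8 * j + 2) (1 - t * (t - 1) / 2) *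
    B (4 * j + 3) t * B (4 * j + 1) (-t) * B (8 * j + 4) (t * (t + 1) / 2 - 1) *
    B (8 * j + 6) (1 - t * (t + 1) / 2))

theorem iter {x : R} {n : ℕ} (hx : x ^ (n + 1) = 0) {N M : ℕ} (hN : n ≤ N) (hM : 2 * n ≤ M)
    (hM' : N + 2 ≤ M) (B : ℕ → ℚ → R) (hB0 : ∀ k, 1 ≤ k → B k 0 = 1)
    (hB1 : ∀ k, 1 ≤ k → ∀ e, B k (e + 1) = (1 - x ^ k) * B k e)
    (h : ℕ → ℤ → R) (hg : ∀ t, Good (h t)) (h0 : h 0 = delta)
    (hs : ∀ t, Lm 1 (h (t + 1)) = h t) (t : ℕ) :
    Fgen (N + 1) M x (h t) = Prd B (N + 1) t := by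
  have hJ : n < N + 1 := by omega
  have hBm : ∀ k, 1 ≤ k → ∀ (e : ℚ) (m : ℕ), B k (e + m) = (1 - x ^ k) ^ m * B k e := by
    intro k hk e m
    induction m with
    | zero => simp
    | succ m ih => rw [Nat.cast_succ, ← add_assoc, hB1 k hk, ih]; ring
  have hev : ∀ (t : ℕ) (w : R), w ^ (n + 1) = 0 → Dn w n (h t) 0 * (1 - w) ^ t = 1 := by
    intro t w hw
    induction t with
    | zero => rw [h0, ev_delta]; simp
    | succ t ih =>
      rw [← hs t, ev_Lm hw (hg _)] at ih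
      rw [pow_succ]
      linear_combination ih
  induction t with
  | zero =>
    have hu : IsUnit (∏ j ∈ range (N + 1), (1 - x ^ (8 * j + 4))) :=
      IsUnit.prod_iff.2 fun j _ => isUnit_one_sub_pow hx (by omega)
    apply hu.mul_left_cancel
    have hq : (-x ^ 2) ^ (n + 1) = 0 := by
      rw [neg_pow, ← pow_mul, pow_eq_zero_of_le' hx (k := 2 * (n + 1)) (by omega), mul_zero]
    have e1 := euler hq hJ
    have e2 := split_prod hx hJ 4 2 (by omega)
    rw [h0, base x (N + 1) M hM']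
    have e3 : ∏ j ∈ range (N + 1), (1 - x ^ (8 * j + 4)) =
        (∏ j ∈ range (N + 1), (1 - (-x ^ 2) ^ (2 * j + 1))) *
          ∏ j ∈ range (N + 1), (1 - x ^ (4 * j + 2)) := by
      rw [← prod_mul_distrib]
      refine prod_congr rfl fun j _ => ?_
      rw [Odd.neg_pow ⟨j, rfl⟩]; ring
    have e4 : ∏ j ∈ range (N + 1), (1 + (-1) ^ (j + 1) * x ^ (2 * (j + 1))) =
        ∏ j ∈ range (N + 1), (1 + (-x ^ 2) ^ (j + 1)) := by
      refine prod_congr rfl fun j _ => ?_
      rw [neg_pow (x ^ 2), ← pow_mul]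
    have e5 : (∏ j ∈ range (N + 1), (1 - x ^ (8 * j + 4))) * Prd B (N + 1) ((0 : ℕ) : ℚ) =
        ∏ j ∈ range (N + 1), (1 - x ^ (4 * j + 2)) := by
      rw [← e2, Prd, ← prod_mul_distrib]
      refine prod_congr rfl fun j _ => ?_
      have b1 := hB1 (8 * j + 2) (by omega) 0
      have b2 := hB1 (8 * j + 6) (by omega) 0
      have b3 := hB1 (8 * j + 4) (by omega) (-1)
      rw [hB0 _ (by omega)] at b1 b2
      rw [show (-1 : ℚ) + 1 = 0 by ring, hB0 _ (by omega)] at b3
      simp only [Nat.cast_zero, zero_mul, zero_div, sub_zero, neg_zero, zero_sub, zero_add] at b1 b2 ⊢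
      rw [hB0 (8 * j + 8) (by omega), hB0 (4 * j + 3) (by omega), hB0 (4 * j + 1) (by omega),
        b1, b2]
      linear_combination (-(1 - x ^ (8 * j + 2)) * (1 - x ^ (8 * j + 6))) * b3
    rw [e5, e4, e3]
    linear_combination (∏ j ∈ range (N + 1), (1 - x ^ (4 * j + 2))) * e1
  | succ t ih =>
    have hstep := step_all hx hN hM (hg t) t (hev t) (N + 1)
    have d1 : Dv 1 (h t) = h (t + 1) :=
      Lm_inj ((hg t).Dv 1) (hg _) (by rw [Lm_Dv (hg t), hs])
    have d2 : Dv (x ^ (4 * (N + 1))) (h t) = h t := by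
      rw [pow_eq_zero_of_le' hx (by omega)]
      have := Lm_Dv (hg t) (0 : R)
      rwa [Lm_zero] at this
    rw [d1, d2, ih] at hstep
    have hu : IsUnit (∏ k ∈ range (N + 1),
        ((1 - x ^ (4 * k + 1)) * (1 - x ^ (8 * k + 6)) * (1 - x ^ (4 * k + 2)) ^ t)) :=
      IsUnit.prod_iff.2 fun j _ => ((isUnit_one_sub_pow hx (by omega)).mul
        (isUnit_one_sub_pow hx (by omega))).mul ((isUnit_one_sub_pow hx (by omega)).pow _)
    apply hu.mul_right_cancel
    rw [hstep]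
    have e2 := split_prod hx hJ 4 2 (by omega)
    have e4 := split_prod hx hJ 4 4 (by omega)
    simp only [prod_mul_distrib, prod_pow] at e2 e4 ⊢
    rw [← e2, ← e4]
    simp only [← prod_mul_distrib, ← prod_pow, Prd]
    refine prod_congr rfl fun j _ => ?_
    have b1 := hBm (8 * j + 8) (by omega) ((t : ℚ) * (t - 1) / 2) t
    have b2 := hBm (8 * j + 2) (by omega) (1 - ((t + 1 : ℕ) : ℚ) * ((t + 1 : ℕ) - 1) / 2) t
    have b3 := hB1 (4 * j + 3) (by omega) t
    have b4 := hB1 (4 * j + 1) (by omega) (-((t + 1 : ℕ) : ℚ))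
    have b5 := hBm (8 * j + 4) (by omega) ((t : ℚ) * (t + 1) / 2 - 1) (t + 1)
    have b6 := hBm (8 * j + 6) (by omega) (1 - ((t + 1 : ℕ) : ℚ) * ((t + 1 : ℕ) + 1) / 2) (t + 1)
    rw [show (t : ℚ) * (t - 1) / 2 + t = ((t + 1 : ℕ) : ℚ) * ((t + 1 : ℕ) - 1) / 2 by
      push_cast; ring] at b1
    rw [show 1 - ((t + 1 : ℕ) : ℚ) * ((t + 1 : ℕ) - 1) / 2 + t = 1 - (t : ℚ) * (t - 1) / 2 by
      push_cast; ring] at b2
    rw [show (t : ℚ) + 1 = ((t + 1 : ℕ) : ℚ) by push_cast; ring] at b3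
    rw [show -((t + 1 : ℕ) : ℚ) + 1 = -(t : ℚ) by push_cast; ring] at b4
    rw [show (t : ℚ) * (t + 1) / 2 - 1 + ((t + 1 : ℕ) : ℚ) =
      ((t + 1 : ℕ) : ℚ) * ((t + 1 : ℕ) + 1) / 2 - 1 by push_cast; ring] at b5
    rw [show 1 - ((t + 1 : ℕ) : ℚ) * ((t + 1 : ℕ) + 1) / 2 + ((t + 1 : ℕ) : ℚ) =
      1 - (t : ℚ) * (t + 1) / 2 by push_cast; ring] at b6
    rw [b1, b2, b3, b4, b5, b6, show 2 * 4 * j + 2 = 8 * j + 2 by ring,
      show 2 * 4 * j + (4 + 2) = 8 * j + 6 by ring, show 2 * 4 * j + 4 = 8 * j + 4 by ring,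
      show 2 * 4 * j + (4 + 4) = 8 * j + 8 by ring, mul_pow, mul_pow, pow_succ _ t, pow_succ _ t]
    ring

end Pool.Agent.Lib.MP_e057d9_co
end
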