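import Pool.Agent.Lib.MP_e057d9_co.Iter
import Pool.Agent.Lib.MP_e057d9_co.Defs

-- part Pool.Agent.Lib.MP_e057d9_co.Hook
section

/-!
The hook content formula of El Samra and King for the determinant, by removing the first hook.
-/

open Finset

namespace Pool.Agent.Lib.MP_e057d9_co

lemma Rw_congr (t N : ℕ) {a a' : ℕ → ℤ} (h : ∀ i, i < N → a i = a' i) :
    Rw t N a = Rw t N a' := by
  unfold Rw
  congr 1
  · exact prod_congr rfl fun i hi => by rw [h i (mem_range.1 hi)]
  · refine prod_congr rfl fun i hi => prod_congr rfl fun k hk => ?_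
    rw [h i (mem_range.1 hi), h k ((mem_range.1 hk).trans (mem_range.1 hi))]

lemma term_step {t N : ℕ} (ht : 2 * N + 3 ≤ t) {a : ℤ} (ha : -(N : ℤ) ≤ a) :
    fz (t + a - (N + 1 : ℕ) - 1) / fz (a + (N + 1 : ℕ)) * (2 * a + t) *
        (((t : ℚ) - (N + 1) + a) * (a + (N + 1))) =
      fz (t + a - N - 1) / fz (a + N) * (2 * a + t) := by
  have e1 := fz_succ (m := t + a - (N + 1 : ℕ) - 1) (by push_cast; omega)
  have e2 := fz_succ (m := a + N) (by omega)
  rw [show (t : ℤ) + a - (N + 1 : ℕ) - 1 + 1 = t + a - N - 1 by push_cast; ring] at e1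
  rw [show a + N + 1 = a + (N + 1 : ℕ) by push_cast; ring] at e2
  have h1 := fz_ne (a + N)
  have h2 : (a : ℚ) + N + 1 ≠ 0 := by
    have : (0 : ℤ) < a + N + 1 := by omega
    have : (0 : ℚ) < a + N + 1 := by exact_mod_cast this
    exact this.ne'
  rw [e1, e2]
  push_cast
  field_simp
  ring

lemma Rw_last {t N : ℕ} (ht : 2 * N + 3 ≤ t) {a : ℕ → ℤ} (ha : ∀ i, i < N → -(N : ℤ) ≤ a i)
    (hN : a N = -((N : ℤ) + 1)) :
    Rw t (N + 1) a = fz (t - 2 * (N + 1)) * Rw t N a := by
  unfold Rw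
  rw [prod_range_succ, prod_range_succ, hN]
  have e0 : fz (t + -((N : ℤ) + 1) - (N + 1 : ℕ) - 1) / fz (-((N : ℤ) + 1) + (N + 1 : ℕ)) *
      (2 * ((-((N : ℤ) + 1) : ℤ) : ℚ) + t) = fz (t - 2 * (N + 1)) := by
    have e1 := fz_succ (m := t + -((N : ℤ) + 1) - (N + 1 : ℕ) - 1) (by push_cast; omega)
    rw [show (t : ℤ) + -((N : ℤ) + 1) - (N + 1 : ℕ) - 1 + 1 = t - 2 * (N + 1) by
      push_cast; ring] at e1
    rw [show -((N : ℤ) + 1) + (N + 1 : ℕ) = 0 by push_cast; ring, fz_zero, e1]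
    push_cast; ring
  have e1 : (∏ i ∈ range N, fz (t + a i - (N + 1 : ℕ) - 1) / fz (a i + (N + 1 : ℕ)) *
        (2 * a i + t)) * ∏ k ∈ range N, (((a k : ℚ) - ((-((N : ℤ) + 1) : ℤ) : ℚ)) *
          (a k + ((-((N : ℤ) + 1) : ℤ) : ℚ) + t)) =
      ∏ i ∈ range N, fz (t + a i - N - 1) / fz (a i + N) * (2 * a i + t) := by
    rw [← prod_mul_distrib]
    refine prod_congr rfl fun i hi => ?_
    rw [← term_step ht (ha i (mem_range.1 hi))]
    push_cast; ring
  rw [e0, ← e1]; ring

lemma Rw_first {t N : ℕ} (ht : 2 * N + 3 ≤ t) {a : ℕ → ℤ}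
    (ha : ∀ i, i < N → -(N : ℤ) ≤ a (i + 1)) :
    Rw t (N + 1) a * ((∏ i ∈ range N, ((t : ℚ) - (N + 1) + a (i + 1))) *
        ∏ i ∈ range N, ((a (i + 1) : ℚ) + (N + 1))) =
      fz (t + a 0 - (N + 1 : ℕ) - 1) / fz (a 0 + (N + 1 : ℕ)) * (2 * a 0 + t) *
        ((∏ i ∈ range N, ((a 0 : ℚ) - a (i + 1))) * ∏ i ∈ range N, ((a 0 : ℚ) + a (i + 1) + t)) *
        Rw t N (fun i => a (i + 1)) := by
  unfold Rw
  rw [prod_range_succ', prod_range_succ']
  simp only [prod_range_succ', range_zero, prod_empty, mul_one]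
  have e1 : (∏ i ∈ range N, fz (t + a (i + 1) - (N + 1 : ℕ) - 1) / fz (a (i + 1) + (N + 1 : ℕ)) *
        (2 * a (i + 1) + t)) * ((∏ i ∈ range N, ((t : ℚ) - (N + 1) + a (i + 1))) *
        ∏ i ∈ range N, ((a (i + 1) : ℚ) + (N + 1))) =
      ∏ i ∈ range N, fz (t + a (i + 1) - N - 1) / fz (a (i + 1) + N) * (2 * a (i + 1) + t) := by
    rw [← prod_mul_distrib, ← prod_mul_distrib]
    exact prod_congr rfl fun i hi => term_step ht (ha i (mem_range.1 hi))
  rw [← e1]
  simp only [prod_mul_distrib]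
  ring

/-- removal of the first row and the first column -/
noncomputable def strip (μ : YoungDiagram) : YoungDiagram where
  cells := μ.cells.preimage (fun c : ℕ × ℕ => (c.1 + 1, c.2 + 1)) (by
    rintro ⟨a, b⟩ - ⟨c, d⟩ - h
    simp only [Prod.mk.injEq] at h ⊢
    omega)
  isLowerSet := by
    rintro ⟨a, b⟩ ⟨c, d⟩ h hab
    simp only [coe_preimage, Set.mem_preimage, mem_coe, YoungDiagram.mem_cells] at hab ⊢
    exact μ.up_left_mem (by have := h.1; simp only at this; omega)
      (by have := h.2; simp only at this; omega) hab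

lemma mem_strip {μ : YoungDiagram} {i j : ℕ} : (i, j) ∈ strip μ ↔ (i + 1, j + 1) ∈ μ := by
  rw [← YoungDiagram.mem_cells]
  simp [strip]

lemma rowLen_strip (μ : YoungDiagram) (i : ℕ) : (strip μ).rowLen i = μ.rowLen (i + 1) - 1 := by
  refine eq_of_forall_lt_iff fun j => ?_
  rw [← YoungDiagram.mem_iff_lt_rowLen, mem_strip, YoungDiagram.mem_iff_lt_rowLen]
  omega

lemma colLen_strip (μ : YoungDiagram) (j : ℕ) : (strip μ).colLen j = μ.colLen (j + 1) - 1 := by
  refine eq_of_forall_lt_iff fun i => ?_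
  rw [← YoungDiagram.mem_iff_lt_colLen, mem_strip, YoungDiagram.mem_iff_lt_colLen]
  omega

lemma prod_cells_strip (μ : YoungDiagram) (g : ℕ × ℕ → ℚ) :
    ∏ c ∈ μ.cells, g c = (∏ i ∈ range (μ.colLen 0), g (i, 0)) *
      (∏ j ∈ range (μ.rowLen 0 - 1), g (0, j + 1)) *
        ∏ c ∈ (strip μ).cells, g (c.1 + 1, c.2 + 1) := by
  rw [← prod_filter_mul_prod_filter_not μ.cells (fun c => c.2 = 0),
    ← prod_filter_mul_prod_filter_not (μ.cells.filter (fun c => ¬ c.2 = 0)) (fun c => c.1 = 0),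
    mul_assoc]
  congr 1
  · refine prod_nbij' (fun c => c.1) (fun i => (i, 0)) ?_ ?_ ?_ ?_ ?_
    · rintro ⟨i, j⟩ h
      simp only [mem_filter, YoungDiagram.mem_cells] at h
      obtain ⟨h1, rfl⟩ := h
      exact mem_range.2 (YoungDiagram.mem_iff_lt_colLen.1 h1)
    · intro i hi
      simp only [mem_filter, YoungDiagram.mem_cells, and_true]
      exact YoungDiagram.mem_iff_lt_colLen.2 (mem_range.1 hi)
    · rintro ⟨i, j⟩ h
      simp only [mem_filter] at h
      simp [h.2.symm]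
    · intro i _; rfl
    · rintro ⟨i, j⟩ h
      simp only [mem_filter] at h
      obtain ⟨-, rfl⟩ := h
      rfl
  congr 1
  · refine prod_nbij' (fun c => c.2 - 1) (fun j => (0, j + 1)) ?_ ?_ ?_ ?_ ?_
    · rintro ⟨i, j⟩ h
      simp only [mem_filter, YoungDiagram.mem_cells] at h
      obtain ⟨⟨h1, h2⟩, rfl⟩ := h
      have := YoungDiagram.mem_iff_lt_rowLen.1 h1
      exact mem_range.2 (by simp only; omega)
    · intro j hj
      simp only [mem_filter, YoungDiagram.mem_cells, and_true]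
      have := mem_range.1 hj
      exact ⟨YoungDiagram.mem_iff_lt_rowLen.2 (by omega), by omega⟩
    · rintro ⟨i, j⟩ h
      simp only [mem_filter] at h
      obtain ⟨⟨-, h2⟩, rfl⟩ := h
      simp only [Prod.mk.injEq, true_and]; omega
    · intro j _; simp
    · rintro ⟨i, j⟩ h
      simp only [mem_filter] at h
      obtain ⟨⟨-, h2⟩, rfl⟩ := h
      simp only [show j - 1 + 1 = j by omega]
  · refine prod_nbij' (fun c => (c.1 - 1, c.2 - 1)) (fun c => (c.1 + 1, c.2 + 1)) ?_ ?_ ?_ ?_ ?_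
    · rintro ⟨i, j⟩ h
      simp only [mem_filter, YoungDiagram.mem_cells] at h
      obtain ⟨⟨h1, h2⟩, h3⟩ := h
      simp only [YoungDiagram.mem_cells, mem_strip]
      rwa [show i - 1 + 1 = i by omega, show j - 1 + 1 = j by omega]
    · rintro ⟨i, j⟩ h
      simp only [YoungDiagram.mem_cells, mem_strip] at h
      simp [h]
    · rintro ⟨i, j⟩ h
      simp only [mem_filter] at h
      simp only [Prod.mk.injEq]; omega
    · rintro ⟨i, j⟩ _; simp
    · rintro ⟨i, j⟩ h
      simp only [mem_filter] at h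
      simp only [show i - 1 + 1 = i by omega, show j - 1 + 1 = j by omega]

lemma hook_strip {μ : YoungDiagram} {c : ℕ × ℕ} (hc : c ∈ (strip μ).cells) :
    hook μ (c.1 + 1, c.2 + 1) = hook (strip μ) c := by
  obtain ⟨i, j⟩ := c
  rw [YoungDiagram.mem_cells, mem_strip] at hc
  have h1 := YoungDiagram.mem_iff_lt_rowLen.1 hc
  have h2 := YoungDiagram.mem_iff_lt_colLen.1 hc
  simp only [hook, rowLen_strip, colLen_strip]
  omega

lemma content_strip {μ : YoungDiagram} {c : ℕ × ℕ} (hc : c ∈ (strip μ).cells) :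
    contentO μ (c.1 + 1, c.2 + 1) = contentO (strip μ) c := by
  obtain ⟨i, j⟩ := c
  rw [YoungDiagram.mem_cells, mem_strip] at hc
  have h1 := YoungDiagram.mem_iff_lt_rowLen.1 hc
  have h2 := YoungDiagram.mem_iff_lt_colLen.1 hc
  simp only [contentO, rowLen_strip, colLen_strip]
  by_cases h : j ≤ i
  · have := μ.rowLen_anti (j + 1) (i + 1) (by omega)
    rw [if_pos (by omega), if_pos h]; omega
  · have := μ.colLen_anti (i + 1) (j + 1) (by omega)
    rw [if_neg (by omega), if_neg h]; omega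

/-- complementarity of the shifted row and column lengths -/
lemma maya (μ : YoungDiagram) {N : ℕ} (hN : μ.colLen 0 = N + 1) (g : ℤ → ℚ) :
    (∏ j ∈ range (μ.rowLen 0), g ((j : ℤ) - μ.colLen j)) *
        ∏ i ∈ range N, g ((μ.rowLen (i + 1) : ℤ) - ((i + 1 : ℕ) + 1)) =
      ∏ m ∈ range (μ.rowLen 0 + N), g (-((N : ℤ) + 1) + m) := by
  set M := μ.rowLen 0 with hM
  let b : ℕ → ℤ := fun j => (j : ℤ) - μ.colLen j
  let a : ℕ → ℤ := fun i => (μ.rowLen (i + 1) : ℤ) - ((i + 1 : ℕ) + 1)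
  let e : ℕ → ℤ := fun m => -((N : ℤ) + 1) + m
  have hb : Function.Injective b := by
    refine StrictMono.injective fun j k hjk => ?_
    have := μ.colLen_anti j k hjk.le
    simp only [b]; omega
  have ha : Function.Injective a := by
    refine StrictAnti.injective fun j k hjk => ?_
    have := μ.rowLen_anti (j + 1) (k + 1) (by omega)
    simp only [a]; omega
  have he : Function.Injective e := by
    intro j k h
    simp only [e] at h; omega
  have hdisj : Disjoint ((range M).image b) ((range N).image a) := by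
    rw [disjoint_left]
    intro z h1 h2
    obtain ⟨j, -, rfl⟩ := mem_image.1 h1
    obtain ⟨i, -, hi⟩ := mem_image.1 h2
    simp only [a, b] at hi
    have k1 := YoungDiagram.mem_iff_lt_rowLen (μ := μ) (i := i + 1) (j := j)
    have k2 := YoungDiagram.mem_iff_lt_colLen (μ := μ) (i := i + 1) (j := j)
    by_cases hm : (i + 1, j) ∈ μ
    · have := k1.1 hm
      have := k2.1 hm
      omega
    · have := mt k1.2 hm
      have := mt k2.2 hm
      omega
  have hM1 : 1 ≤ M := by
    have : (0, 0) ∈ μ := YoungDiagram.mem_iff_lt_colLen.2 (by omega)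
    exact YoungDiagram.mem_iff_lt_rowLen.1 this
  have hsub : (range M).image b ∪ (range N).image a ⊆ (range (M + N)).image e := by
    intro z hz
    have : -((N : ℤ) + 1) ≤ z ∧ z ≤ M - 2 := by
      rcases mem_union.1 hz with h | h
      · obtain ⟨j, hj, rfl⟩ := mem_image.1 h
        have h1 := μ.colLen_anti 0 j (Nat.zero_le j)
        have h2 : 0 < μ.colLen j :=
          YoungDiagram.mem_iff_lt_colLen.1 (YoungDiagram.mem_iff_lt_rowLen.2 (mem_range.1 hj))
        have := mem_range.1 hj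
        simp only [b]; omega
      · obtain ⟨i, hi, rfl⟩ := mem_image.1 h
        have h1 := μ.rowLen_anti 0 (i + 1) (Nat.zero_le _)
        have := mem_range.1 hi
        simp only [a]; omega
    refine mem_image.2 ⟨(z + N + 1).toNat, mem_range.2 (by omega), ?_⟩
    simp only [e]; omega
  have heq : (range M).image b ∪ (range N).image a = (range (M + N)).image e := by
    refine eq_of_subset_of_card_le hsub ?_
    rw [card_union_of_disjoint hdisj, card_image_of_injective _ hb, card_image_of_injective _ ha,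
      card_image_of_injective _ he]
    simp
  have := congrArg (fun s => ∏ z ∈ s, g z) heq
  rw [prod_union hdisj, prod_image (fun x _ y _ h => hb h), prod_image (fun x _ y _ h => ha h),
    prod_image (fun x _ y _ h => he h)] at this
  exact this

/-- the hook content product at a rational number -/
def Wq (t : ℚ) (μ : YoungDiagram) : ℚ :=
  ∏ c ∈ μ.cells, 1 / (hook μ c : ℚ) * (t + contentO μ c)

lemma eval_WO (t : ℚ) (μ : YoungDiagram) : (WO μ).eval t = Wq t μ := by
  simp [WO, Wq, Polynomial.eval_prod]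

theorem hook_content (t : ℕ) (N : ℕ) : ∀ μ : YoungDiagram, μ.colLen 0 ≤ N → 2 * N + 1 ≤ t →
    Odet N (hq ℚ t) μ.rowLen = Wq t μ := by
  induction N with
  | zero =>
    intro μ h _
    have : μ.cells = ∅ := by
      refine eq_empty_of_forall_notMem ?_
      rintro ⟨i, j⟩ hc
      have := YoungDiagram.mem_iff_lt_colLen.1
        (μ.up_left_mem (Nat.zero_le i) (Nat.zero_le j) hc)
      omega
    simp [Odet, Wq, this]
  | succ N ih =>
    intro μ h ht
    by_cases h' : μ.colLen 0 ≤ N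
    · have : μ.rowLen N = 0 := by
        by_contra hc
        have := YoungDiagram.mem_iff_lt_colLen.1
          (YoungDiagram.mem_iff_lt_rowLen.2 (Nat.pos_of_ne_zero hc))
        omega
      rw [Odet_succ (good_hq ℚ t) N _ this, ih μ h' (by omega)]
    have hN : μ.colLen 0 = N + 1 := by omega
    have hν : (strip μ).colLen 0 ≤ N := by
      have := μ.colLen_anti 0 1 zero_le_one
      rw [colLen_strip, zero_add]; omega
    have ihν := ih (strip μ) hν (by omega)
    obtain ⟨κ, hκ⟩ := weyl (t := t) (N := N) (by omega)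
    obtain ⟨κ', hκ'⟩ := weyl (t := t) (N := N + 1) ht
    have k1 := hκ (fun _ => 0)
    have k2 := hκ' (fun _ => 0)
    rw [Odet_empty (good_hq ℚ t)] at k1 k2
    rw [Rw_last (by omega) (fun i hi => by simp only [Nat.cast_zero]; omega) (by simp)] at k2
    have hκκ : κ = κ' * fz (t - 2 * (N + 1)) := by
      linear_combination κ * k2 - κ' * fz (t - 2 * (N + 1)) * k1
    set a : ℕ → ℤ := fun i => (μ.rowLen i : ℤ) - (i + 1) with ha
    have hrow : ∀ i, i < N → 1 ≤ μ.rowLen (i + 1) := fun i hi =>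
      YoungDiagram.mem_iff_lt_rowLen.1 (YoungDiagram.mem_iff_lt_colLen.2 (by omega))
    have hfirst := Rw_first (t := t) (N := N) (a := a) (by omega)
      (fun i hi => by have := hrow i hi; simp only [ha]; omega)
    have hνR : Rw t N (fun i => ((strip μ).rowLen i : ℤ) - (i + 1)) =
        Rw t N (fun i => a (i + 1)) := by
      refine Rw_congr t N fun i hi => ?_
      have := hrow i hi
      simp only [ha, rowLen_strip]; omega
    rw [hκ, hνR] at ihν
    obtain ⟨M, hM⟩ : ∃ M, μ.rowLen 0 = M + 1 := by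
      have : (0, 0) ∈ μ := YoungDiagram.mem_iff_lt_colLen.2 (by omega)
      have := YoungDiagram.mem_iff_lt_rowLen.1 this
      exact ⟨μ.rowLen 0 - 1, by omega⟩
    have ha0 : a 0 = M := by simp [ha, hM]
    have m1 := maya μ hN (fun m => (t : ℚ) - (N + 1) + m)
    have m2 := maya μ hN (fun m => (a 0 : ℚ) - m)
    rw [hM, prod_range_succ', hN] at m1 m2
    have f1 := fz_add (m := t - 2 * (N + 1) - 1) (by omega) (M + 1 + N)
    have f2 := fz_sub (m := a 0 + (N + 1 : ℕ)) (M + 1 + N) (by rw [ha0]; push_cast; omega)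
    have f3 := fz_succ (m := t - 2 * (N + 1) - 1) (by omega)
    rw [show (t : ℤ) - 2 * (N + 1) - 1 + ((M + 1 + N : ℕ) : ℤ) = t + a 0 - (N + 1 : ℕ) - 1 by
      rw [ha0]; push_cast; ring] at f1
    rw [show a 0 + (N + 1 : ℕ) - ((M + 1 + N : ℕ) : ℤ) = 0 by rw [ha0]; push_cast; ring,
      fz_zero, one_mul] at f2
    rw [sub_add_cancel] at f3
    have p1 : ∏ i ∈ range (M + 1 + N), ((((t : ℤ) - 2 * (N + 1) - 1 : ℤ) : ℚ) + 1 + i) =
        ∏ m ∈ range (M + 1 + N), ((t : ℚ) - (N + 1) + ((-((N : ℤ) + 1) + m : ℤ) : ℚ)) :=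
      prod_congr rfl fun m _ => by push_cast; ring
    have p2 : ∏ i ∈ range (M + 1 + N), (((a 0 + (N + 1 : ℕ) : ℤ) : ℚ) - i) =
        ∏ m ∈ range (M + 1 + N), ((a 0 : ℚ) - ((-((N : ℤ) + 1) + m : ℤ) : ℚ)) :=
      prod_congr rfl fun m _ => by push_cast; ring
    rw [p1, ← m1] at f1
    rw [p2, ← m2] at f2
    have hW : Wq t μ = (1 / ((a 0 : ℚ) + (N + 1)) * (2 * a 0 + t)) *
        ((∏ i ∈ range N, ((a 0 : ℚ) + a (i + 1) + t)) /
          ∏ i ∈ range N, ((a (i + 1) : ℚ) + (N + 1))) *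
        ((∏ j ∈ range M, ((t : ℚ) - (N + 1) + (((j + 1 : ℕ) - μ.colLen (j + 1) : ℤ) : ℚ))) /
          ∏ j ∈ range M, ((a 0 : ℚ) - (((j + 1 : ℕ) - μ.colLen (j + 1) : ℤ) : ℚ))) *
        Wq t (strip μ) := by
      rw [Wq, prod_cells_strip, hN, hM, Nat.add_sub_cancel, prod_range_succ',
        ← prod_div_distrib, ← prod_div_distrib]
      congr 1
      · congr 1
        · rw [mul_comm]
          congr 1
          · simp only [hook, contentO, hN, ha, le_refl, if_true]
            push_cast; ring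
          · refine prod_congr rfl fun i _ => ?_
            simp only [hook, contentO, hN, ha, Nat.zero_le, if_true]
            push_cast; ring
        · refine prod_congr rfl fun j _ => ?_
          simp only [hook, contentO, hN, ha, if_neg (show ¬ j + 1 ≤ 0 by omega)]
          push_cast; ring
      · refine prod_congr rfl fun c hc => ?_
        rw [hook_strip hc, content_strip hc]
    rw [hW, ← ihν, hκ', hκκ]
    change κ' * Rw t (N + 1) a = _
    set P1 := ∏ j ∈ range M, ((t : ℚ) - (N + 1) + (((j + 1 : ℕ) - μ.colLen (j + 1) : ℤ) : ℚ))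
    set P3 := ∏ j ∈ range M, ((a 0 : ℚ) - (((j + 1 : ℕ) - μ.colLen (j + 1) : ℤ) : ℚ))
    set P5 := ∏ i ∈ range N, ((a (i + 1) : ℚ) + (N + 1)) with hP5
    set P6 := ∏ i ∈ range N, ((a 0 : ℚ) + a (i + 1) + t)
    set P2 := ∏ i ∈ range N, ((t : ℚ) - (N + 1) + a (i + 1)) with hP2
    set P4 := ∏ i ∈ range N, ((a 0 : ℚ) - a (i + 1)) with hP4
    have g1 : fz (t + a 0 - (N + 1 : ℕ) - 1) = fz (t - 2 * (N + 1)) * P1 * P2 := by
      rw [f1, f3]; push_cast; ring
    have g2 : fz (a 0 + (N + 1 : ℕ)) = ((a 0 : ℚ) + (N + 1)) * P3 * P4 := by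
      rw [f2]; push_cast; ring
    have n1 := fz_ne (t + a 0 - (N + 1 : ℕ) - 1)
    have n2 := fz_ne (a 0 + (N + 1 : ℕ))
    rw [g1] at n1 hfirst
    rw [g2] at n2 hfirst
    have n3 : P2 ≠ 0 := right_ne_zero_of_mul n1
    have n4 : P4 ≠ 0 := right_ne_zero_of_mul n2
    have n5 : P3 ≠ 0 := right_ne_zero_of_mul (left_ne_zero_of_mul n2)
    have n6 : (a 0 : ℚ) + (N + 1) ≠ 0 := left_ne_zero_of_mul (left_ne_zero_of_mul n2)
    have n7 : P5 ≠ 0 := by
      refine prod_ne_zero_iff.2 fun i hi => ?_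
      have h1 := hrow i (mem_range.1 hi)
      have h2 := mem_range.1 hi
      have : (0 : ℤ) < a (i + 1) + (N + 1) := by simp only [ha]; omega
      have : (0 : ℚ) < a (i + 1) + (N + 1) := by exact_mod_cast this
      exact this.ne'
    have : Rw t (N + 1) a = fz (t - 2 * (N + 1)) * P1 * P2 / (((a 0 : ℚ) + (N + 1)) * P3 * P4) *
        (2 * a 0 + t) * (P4 * P6) * Rw t N (fun i => a (i + 1)) / (P2 * P5) := by
      rw [← hfirst]; field_simp
    rw [this]
    field_simp

end Pool.Agent.Lib.MP_e057d9_co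
end

-- part Pool.Agent.Lib.MP_e057d9_co.Main
section

/-!
Assembly of the proof.
-/

open Finset PowerSeries

namespace Pool.Agent.Lib.MP_e057d9_co

/-- rational binomial coefficient -/
def cq (e : ℚ) (m : ℕ) : ℚ := 1 / (m.factorial : ℚ) * ∏ i ∈ range m, (e - i)

/-- binomial series with a rational exponent -/
noncomputable def bq (k : ℕ) (e : ℚ) : ℚ⟦X⟧ :=
  PowerSeries.mk fun n => if k ∣ n then (-1) ^ (n / k) * cq e (n / k) else 0

lemma cq_pascal (e : ℚ) (m : ℕ) : cq (e + 1) (m + 1) = cq e (m + 1) + cq e m := by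
  unfold cq
  rw [prod_range_succ', prod_range_succ, Nat.factorial_succ]
  have h1 : ∏ i ∈ range m, (e + 1 - ((i + 1 : ℕ) : ℚ)) = ∏ i ∈ range m, (e - i) :=
    prod_congr rfl fun i _ => by push_cast; ring
  have h2 : (m.factorial : ℚ) ≠ 0 := by exact_mod_cast (Nat.factorial_pos _).ne'
  have h3 : (m : ℚ) + 1 ≠ 0 := by positivity
  rw [h1]
  push_cast
  field_simp
  ring

lemma map_binPow (t : ℚ) (k : ℕ) (a : Polynomial ℚ) :
    PowerSeries.map (Polynomial.evalRingHom t) (binPow k a) = bq k (a.eval t) := by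
  ext n
  simp only [coeff_map, binPow, bq, coeff_mk]
  split_ifs
  · simp [binom, cq, Polynomial.eval_prod]
  · simp

lemma bq_zero {k : ℕ} (hk : 1 ≤ k) : bq k 0 = 1 := by
  ext n
  simp only [bq, coeff_mk, coeff_one]
  by_cases hn : n = 0
  · simp [hn, cq]
  · rw [if_neg hn]
    split_ifs with h
    · have : 0 < n / k := Nat.div_pos (Nat.le_of_dvd (Nat.pos_of_ne_zero hn) h) hk
      rw [cq, prod_eq_zero (i := 0) (mem_range.2 this) (by simp)]
      simp
    · rfl

lemma bq_succ {k : ℕ} (hk : 1 ≤ k) (e : ℚ) : bq k (e + 1) = (1 - X ^ k) * bq k e := by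
  ext n
  rw [sub_mul, one_mul, map_sub, coeff_X_pow_mul']
  simp only [bq, coeff_mk]
  by_cases h : k ∣ n
  · obtain ⟨m, rfl⟩ := h
    have e1 : k * m / k = m := Nat.mul_div_cancel_left m hk
    rw [if_pos (dvd_mul_right k m), if_pos (dvd_mul_right k m), e1]
    cases m with
    | zero => rw [if_neg (by omega)]; simp [cq]
    | succ m =>
      have e2 : k * (m + 1) - k = k * m := by rw [Nat.mul_succ]; omega
      rw [if_pos (by nlinarith), e2, if_pos (dvd_mul_right k m), Nat.mul_div_cancel_left m hk,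
        cq_pascal]
      ring
  · rw [if_neg h, if_neg h]
    split_ifs with h1 h2
    · exact absurd ((Nat.dvd_sub_iff_left h1 dvd_rfl).1 h2) h
    · simp
    · simp

lemma prod_Icc_one {A : Type*} [CommMonoid A] (f : ℕ → A) (J : ℕ) :
    ∏ j ∈ Icc 1 J, f j = ∏ j ∈ range J, f (j + 1) := by
  induction J with
  | zero => simp
  | succ J ih => rw [prod_Icc_succ_top (by omega), ih, prod_range_succ]

lemma map_prod_factorA (t : ℚ) (J : ℕ) :
    PowerSeries.map (Polynomial.evalRingHom t) (∏ j ∈ Icc 1 J, factorA j) = Prd bq J t := by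
  rw [prod_Icc_one, map_prod, Prd]
  refine prod_congr rfl fun j _ => ?_
  simp only [factorA, map_mul, map_binPow]
  rw [show 8 * (j + 1) - 6 = 8 * j + 2 by omega, show 4 * (j + 1) - 1 = 4 * j + 3 by omega,
    show 4 * (j + 1) - 3 = 4 * j + 1 by omega, show 8 * (j + 1) - 4 = 8 * j + 4 by omega,
    show 8 * (j + 1) - 2 = 8 * j + 6 by omega, show 8 * (j + 1) = 8 * j + 8 by omega]
  have e1 : chooseT.eval t = t * (t - 1) / 2 := by simp [chooseT]; ring
  have e2 : chooseT1.eval t = t * (t + 1) / 2 := by simp [chooseT1]; ring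
  simp only [Polynomial.eval_sub, Polynomial.eval_one, Polynomial.eval_neg, Polynomial.eval_X,
    e1, e2]

theorem coeff_Prd (n N t : ℕ) (hN : n ≤ N) :
    coeff n (Prd bq (N + 1) t) = ∑ l ∈ (Par (N + 1) (2 * (N + 1))).filter
      (fun l => sz (N + 1) l = n), Odet (N + 1) (hq ℚ t) l := by
  let I : Ideal ℚ⟦X⟧ := Ideal.span {X ^ (n + 1)}
  let π : ℚ⟦X⟧ →+* ℚ⟦X⟧ ⧸ I := Ideal.Quotient.mk I
  have hx : (π X) ^ (n + 1) = 0 := by
    rw [← map_pow]
    exact Ideal.Quotient.eq_zero_iff_mem.2 (Ideal.mem_span_singleton_self _)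
  have h := iter hx (N := N) (M := 2 * (N + 1)) hN (by omega) (by omega) (fun k e => π (bq k e))
    (fun k hk => by rw [bq_zero hk, map_one])
    (fun k hk e => by rw [bq_succ hk, map_mul, map_sub, map_one, map_pow])
    (fun t => hq _ t) (good_hq _) (hq_zero _) (Lm_hq _) t
  have e1 : Prd (fun k e => π (bq k e)) (N + 1) t = π (Prd bq (N + 1) t) := by
    simp only [Prd, map_prod, map_mul]
  have e2 : Fgen (N + 1) (2 * (N + 1)) (π X) (hq _ t) =
      π (∑ l ∈ Par (N + 1) (2 * (N + 1)), X ^ sz (N + 1) l * C (Odet (N + 1) (hq ℚ t) l)) := by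
    rw [Fgen, map_sum]
    refine sum_congr rfl fun l _ => ?_
    rw [map_mul, map_pow, ← map_Odet (π.comp (C : ℚ →+* ℚ⟦X⟧))]
    rfl
  rw [e1, e2, Ideal.Quotient.eq, Ideal.mem_span_singleton, X_pow_dvd_iff] at h
  have h2 := h n (Nat.lt_succ_self n)
  rw [map_sub, sub_eq_zero] at h2
  rw [← h2, map_sum, sum_filter]
  refine sum_congr rfl fun l _ => ?_
  rw [mul_comm, coeff_C_mul, coeff_X_pow]
  by_cases hl : sz (N + 1) l = n
  · simp [hl]
  · rw [if_neg hl, if_neg (Ne.symm hl), mul_zero]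

/-- the Young diagram with given row lengths -/
def yd (N : ℕ) (l : ℕ → ℕ) : YoungDiagram where
  cells := (range N ×ˢ range (l 0)).filter fun c => ∀ i, i ≤ c.1 → c.2 < l i
  isLowerSet := by
    rintro ⟨a, b⟩ ⟨c, d⟩ ⟨h1, h2⟩ hab
    simp only [coe_filter, mem_product, mem_range, Set.mem_ofPred_eq] at hab h1 h2 ⊢
    refine ⟨⟨by omega, by omega⟩, fun i hi => ?_⟩
    have := hab.2 i (by omega)
    omega

lemma rowLen_yd {N M : ℕ} {l : ℕ → ℕ} (hl : l ∈ Par N M) : (yd N l).rowLen = l := by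
  obtain ⟨h1, h2, -⟩ := mem_Par.1 hl
  funext i
  refine eq_of_forall_lt_iff fun j => ?_
  rw [← YoungDiagram.mem_iff_lt_rowLen, ← YoungDiagram.mem_cells]
  simp only [yd, mem_filter, mem_product, mem_range]
  constructor
  · intro h; exact h.2 i le_rfl
  · intro h
    refine ⟨⟨?_, h.trans_le (h1 (Nat.zero_le i))⟩, fun k hk => h.trans_le (h1 hk)⟩
    by_contra hc
    have := h1 (not_lt.1 hc)
    omega

lemma colLen_le_iff (μ : YoungDiagram) (N : ℕ) : μ.colLen 0 ≤ N ↔ μ.rowLen N = 0 := by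
  have k1 := YoungDiagram.mem_iff_lt_rowLen (μ := μ) (i := N) (j := 0)
  have k2 := YoungDiagram.mem_iff_lt_colLen (μ := μ) (i := N) (j := 0)
  have := k1.symm.trans k2
  omega

lemma card_eq_sz (μ : YoungDiagram) {N : ℕ} (h : μ.rowLen N = 0) : μ.card = sz N μ.rowLen := by
  rw [sz, YoungDiagram.card, card_eq_sum_card_fiberwise (f := Prod.fst) (t := range N)]
  · exact sum_congr rfl fun i _ => (μ.rowLen_eq_card (i := i)).symm
  · rintro ⟨i, j⟩ hc
    have h1 := YoungDiagram.mem_iff_lt_rowLen.1 ((YoungDiagram.mem_cells _).1 hc)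
    simp only [coe_range, Set.mem_Iio]
    by_contra hi
    have := μ.rowLen_anti N i (not_lt.1 hi)
    omega

lemma eq_of_rowLen {μ ν : YoungDiagram} (h : μ.rowLen = ν.rowLen) : μ = ν := by
  ext ⟨i, j⟩
  simp only [YoungDiagram.mem_cells, YoungDiagram.mem_iff_lt_rowLen, h]

theorem main (n J : ℕ) (hJ : n < J) :
    ∃ S : Finset YoungDiagram, (∀ μ : YoungDiagram, μ ∈ S ↔ μ.card = n) ∧
      ∑ μ ∈ S, WO μ = coeff n (∏ j ∈ Icc 1 J, factorA j) := by
  classical
  obtain ⟨N, rfl⟩ : ∃ N, J = N + 1 := ⟨J - 1, by omega⟩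
  set T := (Par (N + 1) (2 * (N + 1))).filter (fun l => sz (N + 1) l = n) with hT
  refine ⟨T.image (yd (N + 1)), fun μ => ?_, ?_⟩
  · rw [mem_image]
    constructor
    · rintro ⟨l, hl, rfl⟩
      obtain ⟨h1, h2⟩ := mem_filter.1 hl
      rw [card_eq_sz _ (N := N + 1) (by rw [rowLen_yd h1]; exact (mem_Par.1 h1).2.1),
        rowLen_yd h1, h2]
    · intro hμ
      have c1 : μ.colLen 0 ≤ n := by
        rw [← hμ, YoungDiagram.colLen_eq_card]
        exact card_le_card (filter_subset _ _)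
      have c2 : μ.rowLen 0 ≤ n := by
        rw [← hμ, YoungDiagram.rowLen_eq_card]
        exact card_le_card (filter_subset _ _)
      have c3 : μ.rowLen (N + 1) = 0 := (colLen_le_iff μ _).1 (by omega)
      have hP : μ.rowLen ∈ Par (N + 1) (2 * (N + 1)) :=
        mem_Par.2 ⟨fun i j hij => μ.rowLen_anti i j hij, c3, by omega⟩
      exact ⟨μ.rowLen, mem_filter.2 ⟨hP, by rw [← card_eq_sz μ c3, hμ]⟩,
        eq_of_rowLen (rowLen_yd hP)⟩
  · refine Polynomial.eq_of_infinite_eval_eq _ _ ?_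
    refine Set.infinite_of_injective_forall_mem
      (f := fun k : ℕ => ((k + (2 * (N + 1) + 1) : ℕ) : ℚ)) ?_ fun k => ?_
    · intro a b h
      have : a + (2 * (N + 1) + 1) = b + (2 * (N + 1) + 1) := Nat.cast_injective (R := ℚ) h
      omega
    · set t := k + (2 * (N + 1) + 1) with ht
      have e1 : Polynomial.eval (t : ℚ) (coeff n (∏ j ∈ Icc 1 (N + 1), factorA j)) =
          coeff n (Prd bq (N + 1) t) := by
        rw [← map_prod_factorA, coeff_map]; rfl
      rw [Set.mem_ofPred_eq, e1, coeff_Prd n N t (by omega), Polynomial.eval_finsetSum,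
        sum_image]
      · refine sum_congr rfl fun l hl => ?_
        have h1 := (mem_filter.1 hl).1
        rw [eval_WO, ← hook_content t (N + 1) _ _ (by omega), rowLen_yd h1]
        rw [colLen_le_iff, rowLen_yd h1]
        exact (mem_Par.1 h1).2.1
      · intro l hl l' hl' h
        rw [← rowLen_yd (mem_filter.1 hl).1, h, rowLen_yd (mem_filter.1 hl').1]

end Pool.Agent.Lib.MP_e057d9_co
end
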